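import Mathlib

/-!
A rational function with prescribed residues is the logarithmic derivative of a quartic polynomial.
-/

noncomputable section

namespace Pool.Agent.MP_ae5b4e_an_rat

open Polynomial

/-- monic real quadratic polynomials without real roots -/
lemma quad_of_monic {P : ℝ[X]} (hP : IsMonicOfDegree P 2) (hreal : ∀ x : ℝ, P.eval x ≠ 0) :
    ∃ b c : ℝ, b ^ 2 < 4 * c ∧ P = X ^ 2 + C b * X + C c := by
  refine ⟨P.coeff 1, P.coeff 0, ?_, ?_⟩
  · by_contra hneg
    push Not at hneg
    have hP2 : P = X ^ 2 + C (P.coeff 1) * X + C (P.coeff 0) := by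
      ext n
      rcases n with _ | _ | _ | n
      · simp
      · simp
      · have h1 : P.coeff 2 = 1 := by
          have := hP.monic.coeff_natDegree
          rwa [hP.natDegree_eq] at this
        simp [h1, coeff_X]
      · have h1 : P.coeff (n + 3) = 0 := coeff_eq_zero_of_natDegree_lt (by
          rw [hP.natDegree_eq]; omega)
        simp [h1, coeff_X, coeff_C]
    set b := P.coeff 1
    set c := P.coeff 0
    have h1 : 0 ≤ b ^ 2 - 4 * c := by linarith
    refine hreal ((-b + √(b ^ 2 - 4 * c)) / 2) ?_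
    rw [hP2]
    simp only [eval_add, eval_mul, eval_pow, eval_X, eval_C]
    have h2 := Real.sq_sqrt h1
    linear_combination h2 / 4
  · ext n
    rcases n with _ | _ | _ | n
    · simp
    · simp
    · have h1 : P.coeff 2 = 1 := by
        have := hP.monic.coeff_natDegree
        rwa [hP.natDegree_eq] at this
      simp [h1, coeff_X]
    · have h1 : P.coeff (n + 3) = 0 := coeff_eq_zero_of_natDegree_lt (by
        rw [hP.natDegree_eq]; omega)
      simp [h1, coeff_X, coeff_C]

/-- the quartic -/
def quartic (b₁ c₁ b₂ c₂ : ℝ) : ℝ[X] := (X ^ 2 + C b₁ * X + C c₁) * (X ^ 2 + C b₂ * X + C c₂)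

theorem exists_quartic {N D : ℝ[X]} (hD : D.Monic) (hcop : IsCoprime N D)
    (hreal : ∀ x : ℝ, D.eval x ≠ 0) (hdeg : (X * N + C 4 * D).degree < D.degree)
    (hres : ∀ z : ℂ, aeval z D = 0 → aeval z (derivative D) ≠ 0 ∧
      (aeval z N / aeval z (derivative D) = -2 ∨
        ∃ K : ℕ, 1 ≤ K ∧ (K:ℂ) * (aeval z N / aeval z (derivative D) + 2) = 2)) :
    ∃ b₁ c₁ b₂ c₂ : ℝ, b₁ ^ 2 < 4 * c₁ ∧ b₂ ^ 2 < 4 * c₂ ∧
      N * quartic b₁ c₁ b₂ c₂ = -(derivative (quartic b₁ c₁ b₂ c₂) * D) := by
  classical
  have hD0 : D ≠ 0 := hD.ne_zero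
  -- the degree of `D` is positive
  have hdpos : 0 < D.natDegree := by
    by_contra hneg
    have h0 : D.natDegree = 0 := by omega
    have h1 : D = 1 := by
      rw [← C_1, ← hD.coeff_natDegree, h0]
      exact eq_C_of_natDegree_eq_zero h0
    rw [h1] at hdeg
    have h2 : (X * N + C 4 * 1 : ℝ[X]) = 0 := by
      rw [degree_one] at hdeg
      exact degree_eq_bot.1 (Nat.WithBot.lt_zero_iff.1 hdeg)
    have h3 := congrArg (eval 0) h2
    simp at h3
  obtain ⟨e, he⟩ : ∃ e, D.natDegree = e + 1 := ⟨D.natDegree - 1, by omega⟩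
  -- the leading coefficient of `N`
  have hcoef : N.coeff e = -4 := by
    have h1 : (X * N + C 4 * D).coeff (e + 1) = 0 := by
      refine coeff_eq_zero_of_degree_lt (hdeg.trans_le ?_)
      rw [degree_eq_natDegree hD0, he]
    rw [coeff_add, coeff_X_mul, coeff_C_mul, ← he, hD.coeff_natDegree] at h1
    linarith
  have hNdeg : N.degree < D.degree := by
    rw [degree_eq_natDegree hD0, he]
    rw [degree_lt_iff_coeff_zero]
    intro m hm
    have h1 : (X * N + C 4 * D).coeff (m + 1) = 0 := by
      refine coeff_eq_zero_of_degree_lt (hdeg.trans_le ?_)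
      rw [degree_eq_natDegree hD0, he]
      exact_mod_cast (by omega : e + 1 ≤ m + 1)
    have h2 : D.coeff (m + 1) = 0 := coeff_eq_zero_of_natDegree_lt (by omega)
    rw [coeff_add, coeff_X_mul, coeff_C_mul, h2, mul_zero, add_zero] at h1
    exact h1
  -- pass to the complex numbers
  set ι : ℝ →+* ℂ := algebraMap ℝ ℂ with hι
  set Dc : ℂ[X] := D.map ι with hDc
  set Nc : ℂ[X] := N.map ι with hNc
  have hDcm : Dc.Monic := hD.map ι
  have hDc0 : Dc ≠ 0 := hDcm.ne_zero
  have hev : ∀ (P : ℝ[X]) (z : ℂ), aeval z P = eval z (P.map ι) := by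
    intro P z
    rw [eval_map, hι, aeval_def]
  have hDcd : Dc.natDegree = D.natDegree := natDegree_map ι
  have hres' : ∀ z : ℂ, eval z Dc = 0 → eval z (derivative Dc) ≠ 0 ∧
      (eval z Nc / eval z (derivative Dc) = -2 ∨
        ∃ K : ℕ, 1 ≤ K ∧ (K:ℂ) * (eval z Nc / eval z (derivative Dc) + 2) = 2) := by
    intro z hz
    have h1 := hres z (by rw [hev]; exact hz)
    rw [hev, hev] at h1
    rw [hDc, derivative_map]
    exact h1
  -- coprimality
  have hNne : ∀ z : ℂ, eval z Dc = 0 → eval z Nc ≠ 0 := by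
    intro z hz hz'
    obtain ⟨u, w, huw⟩ := hcop
    have h1 := congrArg (fun P => eval z (P.map ι)) huw
    simp only [Polynomial.map_add, Polynomial.map_mul, eval_add, eval_mul, Polynomial.map_one,
      eval_one] at h1
    rw [← hNc, ← hDc, hz, hz'] at h1
    simp at h1
  -- the roots
  set s : Finset ℂ := Dc.roots.toFinset with hs
  have hmem : ∀ z, z ∈ s ↔ eval z Dc = 0 := by
    intro z
    rw [hs, Multiset.mem_toFinset, mem_roots hDc0, IsRoot.def]
  have hnodup : Dc.roots.Nodup := by
    rw [Multiset.nodup_iff_count_le_one]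
    intro z
    rw [count_roots]
    by_contra hgt
    push Not at hgt
    have h1 : eval z Dc = 0 := by
      have : 0 < rootMultiplicity z Dc := by omega
      exact (rootMultiplicity_pos hDc0).1 this
    have h2 := (one_lt_rootMultiplicity_iff_isRoot hDc0).1 hgt
    exact (hres' z h1).1 h2.2
  have hsplit : Dc = Lagrange.nodal s id := by
    have h1 : Dc.Splits := IsAlgClosed.splits Dc
    have h2 := h1.eq_prod_roots_of_monic hDcm
    rw [Lagrange.nodal_eq, Finset.prod]
    simp only [id]
    have h3 : s.val = Dc.roots := by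
      rw [hs]
      exact Multiset.dedup_eq_self.2 hnodup
    rw [h3]
    exact h2
  have hcard : s.card = e + 1 := by
    have h1 : (Lagrange.nodal s (id : ℂ → ℂ)).natDegree = s.card := Lagrange.natDegree_nodal
    rw [← hsplit, hDcd, he] at h1
    exact h1.symm
  have hNcd : Nc.degree < (s.card : WithBot ℕ) := by
    rw [hNc]
    refine (degree_map_le).trans_lt ?_
    rw [hcard, ← he, ← degree_eq_natDegree hD0]
    exact hNdeg
  -- the sum of the residues
  have hsum : ∑ z ∈ s, eval z Nc / eval z (derivative Dc) = -4 := by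
    have h1 := Lagrange.coeff_eq_sum (s := s) (v := (id : ℂ → ℂ)) (Set.injOn_id _) hNcd
    have h2 : Nc.coeff (s.card - 1) = -4 := by
      rw [hcard, Nat.add_sub_cancel, hNc, coeff_map, hcoef]
      simp [hι]
    rw [h2] at h1
    rw [h1]
    refine Finset.sum_congr rfl fun z hz => ?_
    simp only [id]
    congr 1
    rw [hsplit]
    have h3 := Lagrange.eval_nodal_derivative_eval_node_eq (v := (id : ℂ → ℂ)) hz
    simp only [id] at h3
    rw [h3, Lagrange.eval_nodal]
    simp
  -- bounds for the residues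
  set g : ℂ → ℂ := fun z => eval z Nc / eval z (derivative Dc) with hg
  have hbound : ∀ z ∈ s, -2 ≤ (g z).re ∧ (g z).re ≤ -1 ∧ (g z).im = 0 := by
    intro z hz
    have hz0 := (hmem z).1 hz
    obtain ⟨h1, h2⟩ := hres' z hz0
    have h3 : g z ≠ 0 := div_ne_zero (hNne z hz0) h1
    rcases h2 with h2 | ⟨K, hK, h2⟩
    · have : g z = -2 := h2
      rw [this]
      norm_num
    · have h4 : (K:ℂ) * (g z + 2) = 2 := h2
      have hK2 : 2 ≤ K := by
        by_contra hlt
        have : K = 1 := by omega
        rw [this] at h4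
        push_cast at h4
        apply h3
        linear_combination h4
      have hK0 : (K:ℂ) ≠ 0 := by exact_mod_cast (by omega : K ≠ 0)
      have h5 : g z = ((2 / (K:ℝ) - 2 : ℝ) : ℂ) := by
        push_cast
        field_simp
        linear_combination h4
      rw [h5, Complex.ofReal_re, Complex.ofReal_im]
      have hK2' : (2:ℝ) ≤ K := by exact_mod_cast hK2
      have h6 : 0 < 2 / (K:ℝ) := by positivity
      have h7 : 2 / (K:ℝ) ≤ 1 := by
        rw [div_le_one (by linarith)]
        exact hK2'
      exact ⟨by linarith, by linarith, rfl⟩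
  have hsumre : ∑ z ∈ s, (g z).re = -4 := by
    have := congrArg Complex.re hsum
    rw [Complex.re_sum] at this
    simpa using this
  have hup : (-4:ℝ) ≤ -((e:ℝ) + 1) := by
    rw [← hsumre]
    calc ∑ z ∈ s, (g z).re ≤ ∑ z ∈ s, (-1:ℝ) := Finset.sum_le_sum fun z hz => (hbound z hz).2.1
      _ = -((e:ℝ) + 1) := by
        rw [Finset.sum_const, hcard]
        push_cast
        simp
  have hlow : -2 * ((e:ℝ) + 1) ≤ (-4:ℝ) := by
    rw [← hsumre]
    calc -2 * ((e:ℝ) + 1) = ∑ z ∈ s, (-2:ℝ) := by
          rw [Finset.sum_const, hcard]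
          push_cast
          simp
          ring
      _ ≤ ∑ z ∈ s, (g z).re := Finset.sum_le_sum fun z hz => (hbound z hz).1
  have he3 : e ≤ 3 := by
    have : (e:ℝ) ≤ 3 := by linarith
    exact_mod_cast this
  have he1 : 1 ≤ e := by
    have : (1:ℝ) ≤ e := by linarith
    exact_mod_cast this
  have hinj : Function.Injective (Polynomial.map ι) := Polynomial.map_injective ι ι.injective
  have hcases : e = 1 ∨ e = 2 ∨ e = 3 := by omega
  rcases hcases with rfl | rfl | rfl
  · -- two poles
    have hall : ∀ z ∈ s, g z = -2 := by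
      have h1 : ∀ z ∈ s, (g z).re = -2 := by
        by_contra hne
        push Not at hne
        obtain ⟨z, hz, hzne⟩ := hne
        have h2 : ∑ z ∈ s, (-2:ℝ) < ∑ z ∈ s, (g z).re :=
          Finset.sum_lt_sum (fun z hz => (hbound z hz).1)
            ⟨z, hz, lt_of_le_of_ne (hbound z hz).1 (Ne.symm hzne)⟩
        rw [Finset.sum_const, hcard, hsumre] at h2
        norm_num at h2
      intro z hz
      apply Complex.ext
      · rw [h1 z hz]; simp
      · rw [(hbound z hz).2.2]; simp
    have hN2 : N = -2 * derivative D := by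
      apply hinj
      rw [← hNc]
      have e1 : Polynomial.map ι (-2 * derivative D) = -2 * derivative Dc := by
        rw [Polynomial.map_mul, ← derivative_map, Polynomial.map_neg]
        simp [hDc]
      rw [e1]
      refine eq_of_degrees_lt_of_eval_index_eq (v := (id : ℂ → ℂ)) s (Set.injOn_id _) hNcd ?_ ?_
      · rw [hcard]
        have h1 : (-2 : ℂ[X]) = C (-2) := by rw [map_neg, map_ofNat]
        rw [h1, degree_C_mul (by norm_num : (-2:ℂ) ≠ 0)]
        refine (degree_derivative_lt hDc0).trans_eq ?_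
        rw [degree_eq_natDegree hDc0, hDcd, he]
      · intro z hz
        simp only [id]
        have h1 := hall z hz
        have h2 := (hres' z ((hmem z).1 hz)).1
        simp only [hg] at h1
        rw [div_eq_iff h2] at h1
        rw [h1]
        simp
    have hDm : IsMonicOfDegree D 2 := ⟨he, hD⟩
    obtain ⟨b, c, hbc, hDe⟩ := quad_of_monic hDm hreal
    refine ⟨b, c, b, c, hbc, hbc, ?_⟩
    have e1 : quartic b c b c = D * D := by
      unfold quartic
      rw [← hDe]
    rw [e1, derivative_mul, hN2]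
    ring
  · -- an odd degree is impossible
    exfalso
    obtain ⟨f₁, f₂, hf₁, hf₂, hf⟩ :=
      (IsMonicOfDegree.mk he hD : IsMonicOfDegree D (1 + 2)).eq_isMonicOfDegree_two_mul_isMonicOfDegree
    have h1 : ∃ x : ℝ, f₂.eval x = 0 := by
      have h2 : f₂ = X + C (f₂.coeff 0) := hf₂.monic.eq_X_add_C hf₂.natDegree_eq
      refine ⟨-f₂.coeff 0, ?_⟩
      rw [h2]
      simp
    obtain ⟨x, hx⟩ := h1
    refine hreal x ?_
    rw [hf, eval_mul, hx, mul_zero]
  · -- four poles
    have hall : ∀ z ∈ s, g z = -1 := by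
      have h1 : ∀ z ∈ s, (g z).re = -1 := by
        by_contra hne
        push Not at hne
        obtain ⟨z, hz, hzne⟩ := hne
        have h2 : ∑ z ∈ s, (g z).re < ∑ z ∈ s, (-1:ℝ) :=
          Finset.sum_lt_sum (fun z hz => (hbound z hz).2.1)
            ⟨z, hz, lt_of_le_of_ne (hbound z hz).2.1 hzne⟩
        rw [Finset.sum_const, hcard, hsumre] at h2
        norm_num at h2
      intro z hz
      apply Complex.ext
      · rw [h1 z hz]; simp
      · rw [(hbound z hz).2.2]; simp
    have hN2 : N = -derivative D := by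
      apply hinj
      rw [← hNc]
      have e1 : Polynomial.map ι (-derivative D) = -derivative Dc := by
        rw [Polynomial.map_neg, ← derivative_map]
      rw [e1]
      refine eq_of_degrees_lt_of_eval_index_eq (v := (id : ℂ → ℂ)) s (Set.injOn_id _) hNcd ?_ ?_
      · rw [hcard, degree_neg]
        refine (degree_derivative_lt hDc0).trans_eq ?_
        rw [degree_eq_natDegree hDc0, hDcd, he]
      · intro z hz
        simp only [id]
        have h1 := hall z hz
        have h2 := (hres' z ((hmem z).1 hz)).1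
        simp only [hg] at h1
        rw [div_eq_iff h2] at h1
        rw [h1]
        simp
    obtain ⟨f₁, f₂, hf₁, hf₂, hf⟩ :=
      (IsMonicOfDegree.mk he hD : IsMonicOfDegree D (2 + 2)).eq_isMonicOfDegree_two_mul_isMonicOfDegree
    have hr1 : ∀ x : ℝ, f₁.eval x ≠ 0 := by
      intro x hx
      exact hreal x (by rw [hf, eval_mul, hx, zero_mul])
    have hr2 : ∀ x : ℝ, f₂.eval x ≠ 0 := by
      intro x hx
      exact hreal x (by rw [hf, eval_mul, hx, mul_zero])
    obtain ⟨b₁, c₁, h₁, e₁⟩ := quad_of_monic hf₁ hr1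
    obtain ⟨b₂, c₂, h₂, e₂⟩ := quad_of_monic hf₂ hr2
    refine ⟨b₁, c₁, b₂, c₂, h₁, h₂, ?_⟩
    have e3 : quartic b₁ c₁ b₂ c₂ = D := by
      unfold quartic
      rw [← e₁, ← e₂, hf]
    rw [e3, hN2]
    ring

end Pool.Agent.MP_ae5b4e_an_rat
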