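import Mathlib
import Pool.Agent.Lib.MP_ae5b4e_an_rat.Local

/-!
Rotation numbers of the leaves.
-/

noncomputable section

namespace Pool.Agent.MP_ae5b4e_an_rat

open Real Set Filter Topology MeasureTheory intervalIntegral
open Pool.Agent.MP_ae5b4e_an_total (integral_comp_tau surjective_of_shift leaf_pos)

variable {U : ℝ → ℝ → ℝ} {κ : ℝ → ℝ}

/-- the invariant coordinate on a leaf -/
def HH (U : ℝ → ℝ → ℝ) (c θ : ℝ) : ℝ := ∫ t in (0)..θ, (-D1 U (c, t))

/-- the normalised invariant coordinate on a leaf -/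
def hh (U : ℝ → ℝ → ℝ) (c θ : ℝ) : ℝ := 2 * π * HH U c θ / HH U c (2 * π)

/-- the rotation angle of a leaf -/
def rot (U : ℝ → ℝ → ℝ) (c : ℝ) : ℝ := hh U c (nxt U c 0)

namespace LFam

variable (h : LFam U κ)
include h

lemma continuous_w {c : ℝ} (hc : c ∈ Ioo (0:ℝ) 1) : Continuous fun t => -D1 U (c, t) :=
  (continuous_slice h.continuousOn_D1 hc).neg

lemma hasDerivAt_HH {c : ℝ} (hc : c ∈ Ioo (0:ℝ) 1) (θ : ℝ) :
    HasDerivAt (HH U c) (-D1 U (c, θ)) θ :=
  intervalIntegral.integral_hasDerivAt_right ((h.continuous_w hc).intervalIntegrable _ _)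
    ((h.continuous_w hc).stronglyMeasurableAtFilter _ _) (h.continuous_w hc).continuousAt

lemma strictMono_HH {c : ℝ} (hc : c ∈ Ioo (0:ℝ) 1) : StrictMono (HH U c) := by
  refine strictMono_of_deriv_pos fun θ => ?_
  rw [(h.hasDerivAt_HH hc θ).deriv]
  have := h.D1_neg hc θ
  linarith

omit h in
lemma HH_zero (c : ℝ) : HH U c 0 = 0 := by simp [HH]

lemma HH_pos {c : ℝ} (hc : c ∈ Ioo (0:ℝ) 1) : 0 < HH U c (2 * π) := by
  have h1 := h.strictMono_HH hc (by positivity : (0:ℝ) < 2 * π)
  rwa [HH_zero] at h1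

lemma HH_add {c : ℝ} (hc : c ∈ Ioo (0:ℝ) 1) (θ : ℝ) :
    HH U c (θ + 2 * π) = HH U c θ + HH U c (2 * π) := by
  have hw := h.continuous_w hc
  unfold HH
  rw [← intervalIntegral.integral_add_adjacent_intervals (hw.intervalIntegrable 0 θ)
    (hw.intervalIntegrable θ (θ + 2 * π))]
  have h2 : Function.Periodic (fun t => -D1 U (c, t)) (2 * π) := by
    intro t
    simp only [h.D1_per hc]
  rw [h2.intervalIntegral_add_eq θ 0, zero_add]

lemma hasDerivAt_hh {c : ℝ} (hc : c ∈ Ioo (0:ℝ) 1) (θ : ℝ) :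
    HasDerivAt (hh U c) (2 * π * (-D1 U (c, θ)) / HH U c (2 * π)) θ :=
  ((h.hasDerivAt_HH hc θ).const_mul (2 * π)).div_const _

lemma continuous_hh {c : ℝ} (hc : c ∈ Ioo (0:ℝ) 1) : Continuous (hh U c) :=
  continuous_iff_continuousAt.2 fun θ => (h.hasDerivAt_hh hc θ).continuousAt

lemma strictMono_hh {c : ℝ} (hc : c ∈ Ioo (0:ℝ) 1) : StrictMono (hh U c) := by
  intro x y hxy
  unfold hh
  have h1 := h.strictMono_HH hc hxy
  have h2 := h.HH_pos hc
  exact div_lt_div_of_pos_right (mul_lt_mul_of_pos_left h1 (by positivity)) h2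

omit h in
lemma hh_zero (c : ℝ) : hh U c 0 = 0 := by simp [hh, HH_zero]

lemma hh_add {c : ℝ} (hc : c ∈ Ioo (0:ℝ) 1) (θ : ℝ) : hh U c (θ + 2 * π) = hh U c θ + 2 * π := by
  unfold hh
  have h2 := (h.HH_pos hc).ne'
  rw [h.HH_add hc]
  field_simp

lemma hh_two_pi {c : ℝ} (hc : c ∈ Ioo (0:ℝ) 1) : hh U c (2 * π) = 2 * π := by
  have h1 := h.hh_add hc 0
  simpa [hh_zero] using h1

lemma hh_nxt {c : ℝ} (hc : c ∈ Ioo (0:ℝ) 1) (θ : ℝ) :
    hh U c (nxt U c θ) = hh U c θ + rot U c := by
  have hd : ∀ θ, HasDerivAt (fun θ => hh U c (nxt U c θ) - hh U c θ) 0 θ := by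
    intro θ
    have h1 := ((h.hasDerivAt_hh hc (nxt U c θ)).comp θ (h.hasDerivAt_nxt_θ hc θ)).sub
      (h.hasDerivAt_hh hc θ)
    refine h1.congr_deriv ?_
    have h2 := h.eq_c hc θ
    linear_combination (2 * π / HH U c (2 * π)) * h2
  have h1 := is_const_of_deriv_eq_zero (fun t => (hd t).differentiableAt)
    (fun t => (hd t).deriv) θ 0
  simp only [hh_zero, sub_zero] at h1
  unfold rot
  linarith

lemma strictMono_nxt {c : ℝ} (hc : c ∈ Ioo (0:ℝ) 1) : StrictMono (nxt U c) := by
  refine strictMono_of_deriv_pos fun θ => ?_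
  rw [(h.hasDerivAt_nxt_θ hc θ).deriv]
  exact (h.pos_facts hc).1 θ

lemma hh_iter {c : ℝ} (hc : c ∈ Ioo (0:ℝ) 1) (n : ℕ) (θ : ℝ) :
    hh U c ((nxt U c)^[n] θ) = hh U c θ + n * rot U c := by
  induction n with
  | zero => simp
  | succ n ih =>
    rw [Function.iterate_succ_apply', h.hh_nxt hc, ih]
    push_cast
    ring

omit h in
lemma lt_nxt (c θ : ℝ) : θ < nxt U c θ := by
  have := arctan_lt_pi_div_two (U c θ)
  unfold nxt
  linarith

omit h in
lemma nxt_lt (c θ : ℝ) : nxt U c θ < θ + 2 * π := by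
  have := neg_pi_div_two_lt_arctan (U c θ)
  unfold nxt
  linarith

lemma rot_pos {c : ℝ} (hc : c ∈ Ioo (0:ℝ) 1) : 0 < rot U c := by
  have h1 := h.strictMono_hh hc (lt_nxt (U := U) c 0)
  rwa [hh_zero] at h1

lemma rot_lt {c : ℝ} (hc : c ∈ Ioo (0:ℝ) 1) : rot U c < 2 * π := by
  have h1 := h.strictMono_hh hc (nxt_lt (U := U) c 0)
  rwa [zero_add, h.hh_two_pi hc] at h1

/-- The rotation number is continuous. -/
lemma continuousOn_rot : ContinuousOn (rot U) (Ioo 0 1) := by
  intro c hc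
  set c₁ := c / 2 with hc₁
  set c₂ := (c + 1) / 2 with hc₂
  have h1 : 0 < c₁ := by rw [hc₁]; linarith [hc.1]
  have h2 : c₂ < 1 := by rw [hc₂]; linarith [hc.2]
  have h12 : c₁ ≤ c₂ := by rw [hc₁, hc₂]; linarith [hc.1]
  set pr : ℝ → ℝ := fun c => max c₁ (min c c₂) with hpr
  have hprc : Continuous pr := by simp only [hpr]; fun_prop
  have hprm : ∀ c, pr c ∈ Ioo (0:ℝ) 1 := by
    intro c
    simp only [hpr]
    constructor
    · exact lt_max_of_lt_left h1
    · exact max_lt (by linarith) ((min_le_right _ _).trans_lt h2)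
  have hunc : Continuous (Function.uncurry fun c t => -D1 U (pr c, t)) := by
    have e : (Function.uncurry fun c t => -D1 U (pr c, t)) =
        (fun q : ℝ × ℝ => -D1 U q) ∘ (fun q : ℝ × ℝ => (pr q.1, q.2)) := rfl
    rw [e]
    refine h.continuousOn_D1.neg.comp_continuous ?_ ?_
    · exact (hprc.comp continuous_fst).prodMk continuous_snd
    · intro q
      exact ⟨hprm _, mem_univ _⟩
  have hn : Continuous fun c => nxt U (pr c) 0 := by
    have e : (fun c => nxt U (pr c) 0) = fun c => 0 + π - 2 * arctan (Uf U (pr c, 0)) := rfl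
    rw [e]
    have h3 : Continuous fun c => Uf U (pr c, 0) := by
      refine h.continuousOn_Uf.comp_continuous (f := fun c => (pr c, (0:ℝ))) ?_ ?_
      · fun_prop
      · intro q
        exact ⟨hprm _, mem_univ _⟩
    fun_prop
  have hF : Continuous fun c => ∫ t in (0)..(nxt U (pr c) 0), -D1 U (pr c, t) :=
    intervalIntegral.continuous_parametric_intervalIntegral_of_continuous hunc hn
  have hG : Continuous fun c => ∫ t in (0)..(2 * π), -D1 U (pr c, t) :=
    intervalIntegral.continuous_parametric_intervalIntegral_of_continuous' hunc 0 (2 * π)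
  have hR : Continuous fun c => rot U (pr c) := by
    unfold rot hh HH
    refine (continuous_const.mul hF).div₀ hG ?_
    intro c
    exact (h.HH_pos (hprm c)).ne'
  have hev : (fun c => rot U (pr c)) =ᶠ[𝓝 c] rot U := by
    have hm : Icc c₁ c₂ ∈ 𝓝 c := Icc_mem_nhds (by rw [hc₁]; linarith [hc.1])
      (by rw [hc₂]; linarith [hc.2])
    filter_upwards [hm] with t ht
    have : pr t = t := by
      simp only [hpr]
      rw [min_eq_left ht.2, max_eq_right ht.1]
    rw [this]
  exact (hR.continuousAt.congr hev).continuousWithinAt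

lemma tendsto_nxt (θ : ℝ) : Tendsto (fun c => nxt U c θ) (𝓝[>] 0) (𝓝 θ) := by
  have h1 : Tendsto (fun c => arctan (U c θ)) (𝓝[>] 0) (𝓝 (π / 2)) :=
    (tendsto_arctan_atTop.mono_right nhdsWithin_le_nhds).comp (h.lim0 θ)
  have := (tendsto_const_nhds (x := θ + π)).sub (h1.const_mul 2)
  have e : θ + π - 2 * (π / 2) = θ := by ring
  rw [e] at this
  exact this

lemma rot_small {n : ℕ} (hn : 0 < n) : ∃ c ∈ Ioo (0:ℝ) 1, rot U c < 2 * π / n := by
  set a : ℕ → ℝ := fun i => 2 * π * i / (n + 1) with ha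
  have hn1 : (0:ℝ) < n + 1 := by positivity
  have hlt : ∀ i, a i < a (i + 1) := by
    intro i
    simp only [ha]
    refine div_lt_div_of_pos_right ?_ hn1
    refine mul_lt_mul_of_pos_left ?_ (by positivity)
    push_cast
    linarith
  have hev : ∀ᶠ c in 𝓝[>] (0:ℝ), ∀ i ∈ Finset.range (n + 1), nxt U c (a i) < a (i + 1) := by
    rw [Filter.eventually_all_finset]
    intro i _
    exact (h.tendsto_nxt (a i)).eventually_lt_const (hlt i)
  have hev2 : ∀ᶠ c in 𝓝[>] (0:ℝ), c ∈ Ioo (0:ℝ) 1 := Ioo_mem_nhdsGT one_pos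
  obtain ⟨c, h1, hc⟩ := (hev.and hev2).exists
  refine ⟨c, hc, ?_⟩
  have hit : ∀ i ≤ n, (nxt U c)^[i] 0 ≤ a i := by
    intro i
    induction i with
    | zero => intro _; simp [ha]
    | succ i ih =>
      intro hi
      rw [Function.iterate_succ_apply']
      have h2 := ih (by omega)
      exact ((h.strictMono_nxt hc).monotone h2).trans (h1 i (Finset.mem_range.2 (by omega))).le
  have h2 := hit n le_rfl
  have h3 : a n < 2 * π := by
    simp only [ha]
    rw [div_lt_iff₀ hn1]
    nlinarith [pi_pos]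
  have h4 := h.strictMono_hh hc (h2.trans_lt h3)
  rw [h.hh_iter hc, hh_zero, zero_add, h.hh_two_pi hc] at h4
  rw [lt_div_iff₀ (by exact_mod_cast hn : (0:ℝ) < n)]
  linarith

/-- There is a leaf of periodic points. -/
theorem exists_periodic : ∃ c ∈ Ioo (0:ℝ) 1, ∃ q : ℕ, 0 < q ∧
    ∀ θ, (nxt U c)^[q] θ = θ + 2 * π := by
  have hc : (1/2:ℝ) ∈ Ioo (0:ℝ) 1 := ⟨by norm_num, by norm_num⟩
  have hr := h.rot_pos hc
  obtain ⟨n, hn⟩ := exists_nat_gt (2 * π / rot U (1/2))
  have hn0 : (0:ℝ) < n := lt_trans (by positivity) hn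
  have hn0' : 0 < n := by exact_mod_cast hn0
  obtain ⟨c', hc', hlt⟩ := h.rot_small hn0'
  have h1 : 2 * π / n ≤ rot U (1/2) := by
    rw [div_lt_iff₀ hr] at hn
    rw [div_le_iff₀ hn0]
    linarith
  have h2 : 2 * π / n ∈ rot U '' Ioo 0 1 :=
    isPreconnected_Ioo.intermediate_value hc' hc h.continuousOn_rot ⟨hlt.le, h1⟩
  obtain ⟨c, hcm, hcr⟩ := h2
  refine ⟨c, hcm, n, hn0', fun θ => ?_⟩
  apply (h.strictMono_hh hcm).injective
  rw [h.hh_iter hcm, h.hh_add hcm, hcr]
  field_simp

/-- invariant functions are constant on leaves with an irrational rotation number -/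
lemma const_irr {g : ℝ → ℝ} {c : ℝ} (hc : c ∈ Ioo (0:ℝ) 1) (hg : Continuous g)
    (hper : ∀ θ, g (θ + 2 * π) = g θ) (hinv : ∀ θ, g (nxt U c θ) = g θ)
    (hirr : Irrational (rot U c / (2 * π))) (θ : ℝ) : g θ = g 0 := by
  have hsurj : Function.Surjective (hh U c) :=
    surjective_of_shift (by positivity : (0:ℝ) < 2 * π) (h.continuous_hh hc) (h.hh_add hc)
  set e := Equiv.ofBijective (hh U c) ⟨(h.strictMono_hh hc).injective, hsurj⟩ with he
  have he1 : ∀ s, hh U c (e.symm s) = s := fun s => e.apply_symm_apply s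
  have he2 : ∀ θ, e.symm (hh U c θ) = θ := fun θ => e.symm_apply_apply θ
  have hemono : StrictMono e.symm := by
    intro x y hxy
    by_contra hneg
    push Not at hneg
    have := (h.strictMono_hh hc).monotone hneg
    rw [he1, he1] at this
    linarith
  have hec : Continuous e.symm := hemono.monotone.continuous_of_surjective e.symm.surjective
  set G : ℝ → ℝ := fun s => g (e.symm s) with hG
  have hGc : Continuous G := hg.comp hec
  have hG1 : ∀ s, G (s + 2 * π) = G s := by
    intro s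
    have h1 : e.symm (s + 2 * π) = e.symm s + 2 * π := by
      apply (h.strictMono_hh hc).injective
      rw [he1, h.hh_add hc, he1]
    simp only [hG]
    rw [h1, hper]
  have hG2 : ∀ s, G (s + rot U c) = G s := by
    intro s
    have h1 : e.symm (s + rot U c) = nxt U c (e.symm s) := by
      apply (h.strictMono_hh hc).injective
      rw [he1, h.hh_nxt hc, he1]
    simp only [hG]
    rw [h1, hinv]
  let P : AddSubgroup ℝ :=
    { carrier := {t | ∀ s, G (s + t) = G s}
      add_mem' := by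
        intro x y hx hy s
        rw [← add_assoc, hy, hx]
      zero_mem' := by intro s; simp
      neg_mem' := by
        intro x hx s
        have := hx (s + -x)
        rw [neg_add_cancel_right] at this
        exact this.symm }
  have hPle : AddSubgroup.closure {rot U c, 2 * π} ≤ P := by
    rw [AddSubgroup.closure_le]
    rintro t (rfl | rfl)
    · exact hG2
    · exact hG1
  have hdense : Dense (AddSubgroup.closure {rot U c, 2 * π} : Set ℝ) :=
    dense_addSubgroupClosure_pair_iff.2 hirr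
  have hPclosed : IsClosed (P : Set ℝ) := by
    have e1 : (P : Set ℝ) = ⋂ s, {t | G (s + t) = G s} := by
      ext t
      rw [mem_iInter]
      rfl
    rw [e1]
    refine isClosed_iInter fun s => isClosed_eq (by fun_prop) continuous_const
  have hPtop : (P : Set ℝ) = univ := by
    have h1 : closure (AddSubgroup.closure {rot U c, 2 * π} : Set ℝ) ⊆ P :=
      closure_minimal hPle hPclosed
    rw [hdense.closure_eq] at h1
    exact univ_subset_iff.1 h1
  have h1 : hh U c θ ∈ (P : Set ℝ) := by rw [hPtop]; trivial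
  have h2 : G (0 + hh U c θ) = G 0 := h1 0
  rw [zero_add] at h2
  simp only [hG] at h2
  rw [he2] at h2
  have h3 : e.symm 0 = 0 := by
    have := he2 0
    rwa [hh_zero] at this
  rwa [h3] at h2

/-- leaves with the same rational rotation number coincide -/
lemma rot_ne {c c' : ℝ} (hc : c ∈ Ioo (0:ℝ) 1) (hc' : c' ∈ Ioo (0:ℝ) 1) (hlt : c < c')
    (hrat : ¬ Irrational (rot U c / (2 * π))) : rot U c ≠ rot U c' := by
  intro heq
  have hpi : (0:ℝ) < 2 * π := by positivity
  obtain ⟨r, hr⟩ : ∃ r : ℚ, (r:ℝ) = rot U c / (2 * π) := by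
    unfold Irrational at hrat
    push Not at hrat
    obtain ⟨r, hr⟩ := hrat
    exact ⟨r, hr⟩
  have hrpos : 0 < r := by
    have h1 : (0:ℝ) < r := by
      rw [hr]
      exact div_pos (h.rot_pos hc) hpi
    exact_mod_cast h1
  set q := r.den with hq
  have hqpos : 0 < q := r.den_pos
  obtain ⟨p, hp⟩ := Int.eq_ofNat_of_zero_le (Rat.num_pos.2 hrpos).le
  have hrq : (r:ℝ) * q = p := by
    have h1 : r * q = p := by
      rw [hq]
      have h2 := Rat.mul_den_eq_num r
      rw [h2, hp]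
      simp
    exact_mod_cast h1
  have hrot : (q:ℝ) * rot U c = p * (2 * π) := by
    have h1 : rot U c = r * (2 * π) := by
      rw [hr]
      field_simp
    rw [h1, ← hrq]
    ring
  have hadd : ∀ {c : ℝ}, c ∈ Ioo (0:ℝ) 1 → ∀ (m : ℕ) (θ : ℝ),
      hh U c (θ + m * (2 * π)) = hh U c θ + m * (2 * π) := by
    intro c hc m θ
    induction m with
    | zero => simp
    | succ m ih =>
      have e : θ + ((m + 1 : ℕ) : ℝ) * (2 * π) = (θ + m * (2 * π)) + 2 * π := by
        push_cast; ring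
      rw [e, h.hh_add hc, ih]
      push_cast
      ring
  have h1 : (nxt U c)^[q] 0 = 0 + p * (2 * π) := by
    apply (h.strictMono_hh hc).injective
    rw [h.hh_iter hc, hadd hc, hrot]
  have h2 : (nxt U c')^[q] 0 = 0 + p * (2 * π) := by
    apply (h.strictMono_hh hc').injective
    rw [h.hh_iter hc', hadd hc', ← heq, hrot]
  -- strict monotonicity in the leaf
  have hstep : ∀ θ, nxt U c θ < nxt U c' θ := by
    intro θ
    have h3 : Uf U (c', θ) < Uf U (c, θ) := h.strictAnti θ hc hc' hlt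
    have h4 : arctan (U c' θ) < arctan (U c θ) := arctan_strictMono h3
    unfold nxt
    linarith
  have hiter : ∀ n : ℕ, 0 < n → (nxt U c)^[n] 0 < (nxt U c')^[n] 0 := by
    intro n
    induction n with
    | zero => intro h0; omega
    | succ n ih =>
      intro _
      rw [Function.iterate_succ_apply', Function.iterate_succ_apply']
      rcases Nat.eq_zero_or_pos n with rfl | hn
      · simpa using hstep 0
      · exact ((h.strictMono_nxt hc) (ih hn)).trans (hstep _)
  have h3 := hiter q hqpos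
  rw [h1, h2] at h3
  exact lt_irrefl _ h3

/-- Continuous invariant functions are constant on all leaves. -/
theorem const_of_inv {I : ℝ × ℝ → ℝ} (hI : ContinuousOn I (Ioo 0 1 ×ˢ univ))
    (hper : ∀ c ∈ Ioo (0:ℝ) 1, ∀ θ, I (c, θ + 2 * π) = I (c, θ))
    (hinv : ∀ c ∈ Ioo (0:ℝ) 1, ∀ θ, I (c, nxt U c θ) = I (c, θ)) {c : ℝ}
    (hc : c ∈ Ioo (0:ℝ) 1) (θ : ℝ) : I (c, θ) = I (c, 0) := by
  have hirrc : ∀ c ∈ Ioo (0:ℝ) 1, Irrational (rot U c / (2 * π)) → I (c, θ) = I (c, 0) :=
    fun c hc hirr => h.const_irr hc (continuous_slice hI hc) (hper c hc) (hinv c hc) hirr θ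
  by_cases hirr : Irrational (rot U c / (2 * π))
  · exact hirrc c hc hirr
  · -- approximate by leaves with an irrational rotation number
    have hpi : (0:ℝ) < 2 * π := by positivity
    have hfreq : ∃ᶠ t in 𝓝[>] c, t ∈ Ioo (0:ℝ) 1 ∧ Irrational (rot U t / (2 * π)) := by
      rw [frequently_nhdsWithin_iff]
      rw [frequently_iff]
      intro V hV
      obtain ⟨ε, hε, hεV⟩ := Metric.mem_nhds_iff.1 hV
      obtain ⟨c', hc'⟩ : ∃ c', c < c' ∧ c' < 1 ∧ c' < c + ε := by
        refine ⟨(c + min 1 (c + ε)) / 2, ?_, ?_, ?_⟩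
        · have : c < min 1 (c + ε) := lt_min hc.2 (by linarith)
          linarith
        · have h1 : c < 1 := hc.2
          have h2 : min 1 (c + ε) ≤ 1 := min_le_left _ _
          linarith
        · have h2 : min 1 (c + ε) ≤ c + ε := min_le_right _ _
          linarith
      have hc'm : c' ∈ Ioo (0:ℝ) 1 := ⟨hc.1.trans hc'.1, hc'.2.1⟩
      have hne := h.rot_ne hc hc'm hc'.1 hirr
      have hcont : ContinuousOn (fun t => rot U t / (2 * π)) (Icc c c') :=
        (h.continuousOn_rot.mono (fun t ht => ⟨hc.1.trans_le ht.1, ht.2.trans_lt hc'.2.1⟩)).div_const _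
      have hne' : rot U c / (2 * π) ≠ rot U c' / (2 * π) := by
        intro h0
        apply hne
        field_simp at h0
        exact h0
      -- an irrational value
      have hval : ∃ t ∈ Icc c c', Irrational (rot U t / (2 * π)) := by
        rcases lt_or_gt_of_ne hne' with hlt | hgt
        · obtain ⟨x, hx, hx1, hx2⟩ := exists_irrational_btwn hlt
          obtain ⟨t, ht, hte⟩ := intermediate_value_Icc hc'.1.le hcont ⟨hx1.le, hx2.le⟩
          exact ⟨t, ht, by rw [← hte] at hx; exact hx⟩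
        · obtain ⟨x, hx, hx1, hx2⟩ := exists_irrational_btwn hgt
          obtain ⟨t, ht, hte⟩ := intermediate_value_Icc' hc'.1.le hcont ⟨hx1.le, hx2.le⟩
          exact ⟨t, ht, by rw [← hte] at hx; exact hx⟩
      obtain ⟨t, ht, htirr⟩ := hval
      have htc : c < t := by
        rcases ht.1.lt_or_eq with h1 | h1
        · exact h1
        · rw [← h1] at htirr
          exact absurd htirr hirr
      refine ⟨t, hεV ?_, ⟨⟨hc.1.trans htc, ht.2.trans_lt hc'.2.1⟩, htirr⟩, htc⟩
      rw [Metric.mem_ball, Real.dist_eq, abs_of_pos (by linarith)]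
      linarith [ht.2, hc'.2.2]
    have hIc : ∀ x, ContinuousAt (fun t => I (t, x)) c := by
      intro x
      have h1 : ContinuousAt I (c, x) := hI.continuousAt (isOpen_dom.mem_nhds ⟨hc, mem_univ _⟩)
      exact ContinuousAt.comp (g := I) (f := fun t => (t, x)) h1 (by fun_prop)
    have h1 : Tendsto (fun t => I (t, θ) - I (t, 0)) (𝓝[>] c) (𝓝 (I (c, θ) - I (c, 0))) :=
      (((hIc θ).sub (hIc 0)).tendsto).mono_left nhdsWithin_le_nhds
    have h2 : ∃ᶠ t in 𝓝[>] c, (fun t => I (t, θ) - I (t, 0)) t ∈ ({0} : Set ℝ) := by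
      refine hfreq.mono ?_
      rintro t ⟨ht, hirr⟩
      simp [hirrc t ht hirr]
    have h3 : I (c, θ) - I (c, 0) ∈ ({0} : Set ℝ) :=
      isClosed_singleton.mem_of_frequently_of_tendsto h2 h1
    have h4 : I (c, θ) - I (c, 0) = 0 := h3
    linarith

end LFam

end Pool.Agent.MP_ae5b4e_an_rat
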