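import Mathlib

/-!
Periodic sequences of a rational recursion over a field with a valuation: the residues of the
poles of the right hand side.
-/

noncomputable section

namespace Pool.Agent.MP_ae5b4e_an_rat

open Polynomial

/-- Existence of a place with `x = z`. -/
theorem exists_place {M : Type*} [Field M] [Algebra ℂ M] {x : M} (hx : Transcendental ℂ x)
    (z : ℂ) : ∃ A : ValuationSubring M,
      (∀ c : ℂ, c ≠ 0 → A.valuation (algebraMap ℂ M c) = 1) ∧
      A.valuation (x - algebraMap ℂ M z) < 1 := by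
  set R : Subring M := (aeval (R := ℂ) x).range.toSubring with hR
  have hxR : x - algebraMap ℂ M z ∈ R := by
    rw [hR]
    refine ⟨X - C z, ?_⟩
    simp
  have hcR : ∀ c : ℂ, algebraMap ℂ M c ∈ R := by
    intro c
    exact ⟨C c, by simp⟩
  set I : Ideal R := Ideal.span {⟨x - algebraMap ℂ M z, hxR⟩} with hI
  have hItop : I ≠ ⊤ := by
    intro htop
    have h1 : (1 : R) ∈ I := by rw [htop]; trivial
    rw [hI, Ideal.mem_span_singleton'] at h1
    obtain ⟨⟨w, hw⟩, h2⟩ := h1
    obtain ⟨P, hP⟩ := hw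
    have h3 : w * (x - algebraMap ℂ M z) = 1 := congrArg Subtype.val h2
    have hP' : aeval x P = w := hP
    have h4 : aeval x (P * (X - C z) - 1) = 0 := by
      rw [map_sub, map_mul, hP']
      simp [h3]
    have h5 : P * (X - C z) - 1 = 0 := by
      by_contra hne
      exact hx ⟨_, hne, h4⟩
    have h6 := congrArg (eval z) h5
    simp at h6
  obtain ⟨B, hRB, hIB⟩ := Ideal.image_subset_nonunits_valuationSubring I hItop
  refine ⟨B, ?_, ?_⟩
  · intro c hc
    have h1 : B.valuation (algebraMap ℂ M c) ≤ 1 := (B.valuation_le_one_iff _).2 (hRB (hcR c))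
    have h2 : B.valuation (algebraMap ℂ M c⁻¹) ≤ 1 :=
      (B.valuation_le_one_iff _).2 (hRB (hcR c⁻¹))
    rw [map_inv₀, map_inv₀] at h2
    have h3 : B.valuation (algebraMap ℂ M c) ≠ 0 := by
      rw [Ne, map_eq_zero, map_eq_zero]
      exact hc
    refine le_antisymm h1 ?_
    have h4 : (0 : B.ValueGroup) < B.valuation (algebraMap ℂ M c) := zero_lt_iff.2 h3
    exact (inv_le_one₀ h4).1 h2
  · have h1 : x - algebraMap ℂ M z ∈ B.nonunits :=
      hIB ⟨⟨x - algebraMap ℂ M z, hxR⟩, Ideal.subset_span rfl, rfl⟩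
    exact (B.mem_nonunits_iff).1 h1

section Rec

variable {M : Type*} [Field M] [Algebra ℂ M] {Γ : Type*} [LinearOrderedCommGroupWithZero Γ]

/-- A periodic solution of the recursion, seen from a place. -/
structure Rec (v : Valuation M Γ) (ξ y : ℤ → M) (q : ℕ) (r : ℕ) (a : ℂ) : Prop where
  const : ∀ c : ℂ, c ≠ 0 → v (algebraMap ℂ M c) = 1
  rel : ∀ k, y k * (ξ (k + 1) - ξ k) = 2
  qpos : 0 < q
  perξ : ∀ k, ξ (k + q) = ξ k
  pery : ∀ k, y (k + q) = y k
  loc : ∀ k, v (ξ k) < 1 → v (ξ k ^ r * (y k - y (k - 1)) - algebraMap ℂ M a) < 1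

variable {v : Valuation M Γ} {ξ y : ℤ → M} {q r : ℕ} {a : ℂ}

lemma eq_zero_of_lt (hc : ∀ c : ℂ, c ≠ 0 → v (algebraMap ℂ M c) = 1) {c : ℂ}
    (h : v (algebraMap ℂ M c) < 1) : c = 0 := by
  by_contra hne
  rw [hc c hne] at h
  exact lt_irrefl _ h

omit [Algebra ℂ M] in
lemma v_add_lt {x z : M} (h1 : v x < 1) (h2 : v z < 1) : v (x + z) < 1 :=
  (v.map_add x z).trans_lt (max_lt h1 h2)

omit [Algebra ℂ M] in
lemma v_sub_lt {x z : M} (h1 : v x < 1) (h2 : v z < 1) : v (x - z) < 1 :=
  (v.map_sub x z).trans_lt (max_lt h1 h2)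

omit [Algebra ℂ M] in
lemma v_eq_one_of_sub {x z : M} (h1 : v z = 1) (h2 : v (x - z) < 1) : v x = 1 := by
  have h3 : v (z + (x - z)) = v z := v.map_add_eq_of_lt_left (by rw [h1]; exact h2)
  rw [← h1, ← h3]
  congr 1
  ring

omit [Algebra ℂ M] in
lemma v_le_one_of_sub {x z : M} (h1 : v z ≤ 1) (h2 : v (x - z) < 1) : v x ≤ 1 := by
  have h3 := v.map_add z (x - z)
  have h4 : z + (x - z) = x := by ring
  rw [h4] at h3
  exact h3.trans (max_le h1 h2.le)

namespace Rec

variable (h : Rec v ξ y q r a)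
include h

lemma v_const (c : ℂ) : v (algebraMap ℂ M c) ≤ 1 := by
  rcases eq_or_ne c 0 with rfl | hc
  · simp
  · exact (h.const c hc).le

lemma v_two : v (2 : M) = 1 := by
  have h1 := h.const 2 two_ne_zero
  have h2 : algebraMap ℂ M 2 = 2 := map_ofNat _ 2
  rwa [h2] at h1

lemma y_ne (k : ℤ) : y k ≠ 0 := by
  intro h0
  have h1 := h.rel k
  rw [h0, zero_mul] at h1
  have h2 := h.v_two
  rw [← h1, map_zero] at h2
  exact zero_ne_one h2

/-- time reversal -/
lemma reverse : Rec v (fun k => ξ (-k)) (fun k => -y (-k - 1)) q r a where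
  const := h.const
  rel := by
    intro k
    have h1 := h.rel (-k - 1)
    have e : -k - 1 + 1 = -k := by ring
    have e2 : -(k + 1) = -k - 1 := by ring
    rw [e] at h1
    simp only [e2]
    rw [← h1]
    ring
  qpos := h.qpos
  perξ := by
    intro k
    have h1 := h.perξ (-(k + q))
    have e : -(k + (q:ℤ)) + q = -k := by ring
    rw [e] at h1
    exact h1.symm
  pery := by
    intro k
    have h1 := h.pery (-(k + q) - 1)
    have e : -(k + (q:ℤ)) - 1 + q = -k - 1 := by ring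
    rw [e] at h1
    simp only [h1]
  loc := by
    intro k hk
    have h1 := h.loc (-k) hk
    have e : -(k - 1) - 1 = -k := by ring
    simp only [e]
    have e2 : -y (-k - 1) - -y (-k) = y (-k) - y (-k - 1) := by ring
    rw [e2]
    exact h1

lemma ξ_ne (hr : r ≠ 0) (ha : a ≠ 0) {k : ℤ} (hk : v (ξ k) < 1) : ξ k ≠ 0 := by
  intro h0
  have h1 := h.loc k hk
  rw [h0, zero_pow hr, zero_mul, zero_sub, Valuation.map_neg, h.const a ha] at h1
  exact lt_irrefl _ h1

/-- one step of the evolution next to a pole of higher order -/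
lemma step (hr : 2 ≤ r) (ha : a ≠ 0) {j k : ℤ} (hj : v (ξ j) < 1)
    (hk : v (ξ k / ξ j - 1) < 1) (hP : 1 ≤ v (ξ j ^ r * y k)) :
    v (ξ (k + 1) / ξ j - 1) < 1 ∧
      v (ξ j ^ r * (y (k + 1) - y k) - algebraMap ℂ M a) < 1 := by
  have hr0 : r ≠ 0 := by omega
  have hξj := h.ξ_ne hr0 ha hj
  have hyk := h.y_ne k
  have hy1 := h.y_ne (k + 1)
  -- the ratio
  have e1 : ξ (k + 1) / ξ j - 1 = (ξ k / ξ j - 1) + 2 * ξ j ^ (r - 1) / (ξ j ^ r * y k) := by
    have h1 := h.rel k
    have h2 : ξ (k + 1) = ξ k + 2 / y k := by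
      field_simp
      linear_combination h1
    rw [h2]
    have h3 : ξ j ^ r = ξ j ^ (r - 1) * ξ j := by
      rw [← pow_succ]
      congr 1
      omega
    rw [h3]
    field_simp
    ring
  have e2 : v (2 * ξ j ^ (r - 1) / (ξ j ^ r * y k)) < 1 := by
    rw [map_div₀, map_mul, h.v_two, one_mul, map_pow]
    have h3 : v (ξ j) ^ (r - 1) < 1 := pow_lt_one₀ zero_le hj (by omega)
    have h4 : (0 : Γ) < v (ξ j ^ r * y k) := lt_of_lt_of_le zero_lt_one hP
    rw [div_lt_one₀ h4]
    exact h3.trans_le hP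
  have e3 : v (ξ (k + 1) / ξ j - 1) < 1 := by
    rw [e1]
    exact v_add_lt hk e2
  refine ⟨e3, ?_⟩
  set ρ := ξ (k + 1) / ξ j with hρ
  have hρ1 : v ρ = 1 := v_eq_one_of_sub (by simp) e3
  have hξk : ξ (k + 1) = ρ * ξ j := by
    rw [hρ]
    field_simp
  have hk1 : v (ξ (k + 1)) < 1 := by
    rw [hξk, map_mul, hρ1, one_mul]
    exact hj
  have h5 := h.loc (k + 1) hk1
  have e4 : k + 1 - 1 = k := by ring
  rw [e4] at h5
  set w := ξ j ^ r * (y (k + 1) - y k) with hw
  have e5 : ξ (k + 1) ^ r * (y (k + 1) - y k) = ρ ^ r * w := by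
    rw [hξk, hw, mul_pow]
    ring
  rw [e5] at h5
  have h6 : v (ρ ^ r * w) ≤ 1 := v_le_one_of_sub (h.v_const a) h5
  have h7 : v w ≤ 1 := by
    rw [map_mul, map_pow, hρ1, one_pow, one_mul] at h6
    exact h6
  -- `ρ ^ r - 1`
  have h8 : v (ρ ^ r - 1) < 1 := by
    have h9 : ρ ^ r - 1 = (∑ i ∈ Finset.range r, ρ ^ i) * (ρ - 1) := (geom_sum_mul ρ r).symm
    rw [h9, map_mul]
    have h10 : v (∑ i ∈ Finset.range r, ρ ^ i) ≤ 1 := by
      refine v.map_sum_le ?_
      intro i _
      rw [map_pow, hρ1, one_pow]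
    calc v (∑ i ∈ Finset.range r, ρ ^ i) * v (ρ - 1) ≤ 1 * v (ρ - 1) :=
          mul_le_mul_left h10 _
      _ = v (ρ - 1) := one_mul _
      _ < 1 := e3
  have e6 : w - algebraMap ℂ M a = (ρ ^ r * w - algebraMap ℂ M a) - (ρ ^ r - 1) * w := by ring
  rw [e6]
  refine v_sub_lt h5 ?_
  rw [map_mul]
  calc v (ρ ^ r - 1) * v w ≤ v (ρ ^ r - 1) * 1 := mul_le_mul_right h7 _
    _ = v (ρ ^ r - 1) := mul_one _
    _ < 1 := h8

/-- growth next to a pole of higher order -/
lemma growth (hr : 2 ≤ r) (ha : a ≠ 0) {j : ℤ} (hj : v (ξ j) < 1)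
    (hP : v (ξ j ^ r * y (j - 1)) < 1) : False := by
  have hr0 : r ≠ 0 := by omega
  have hξj := h.ξ_ne hr0 ha hj
  have key : ∀ n : ℕ, v (ξ (j + n) / ξ j - 1) < 1 ∧
      v (ξ j ^ r * y (j + n) - algebraMap ℂ M ((n + 1) * a)) < 1 := by
    intro n
    induction n with
    | zero =>
      constructor
      · simp [hξj]
      · have h1 := h.loc j hj
        have e : ξ j ^ r * y (j + (0:ℕ)) - algebraMap ℂ M (((0:ℕ) + 1) * a) =
            (ξ j ^ r * (y j - y (j - 1)) - algebraMap ℂ M a) + ξ j ^ r * y (j - 1) := by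
          simp
          ring
        rw [e]
        exact v_add_lt h1 hP
    | succ n ih =>
      have hne : ((n:ℂ) + 1) * a ≠ 0 := mul_ne_zero (by exact_mod_cast Nat.succ_ne_zero n) ha
      have hv1 : v (ξ j ^ r * y (j + n)) = 1 := v_eq_one_of_sub (h.const _ hne) ih.2
      obtain ⟨s1, s2⟩ := h.step hr ha hj ih.1 hv1.ge
      have e0 : j + ((n + 1 : ℕ) : ℤ) = j + n + 1 := by push_cast; ring
      rw [e0]
      refine ⟨s1, ?_⟩
      have e : ξ j ^ r * y (j + n + 1) - algebraMap ℂ M (((n + 1 : ℕ) + 1) * a) =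
          (ξ j ^ r * (y (j + n + 1) - y (j + n)) - algebraMap ℂ M a) +
          (ξ j ^ r * y (j + n) - algebraMap ℂ M ((n + 1) * a)) := by
        simp only [map_mul, map_add, map_one, map_natCast]
        push_cast
        ring
      rw [e]
      exact v_add_lt s2 ih.2
  obtain ⟨m, hm⟩ : ∃ m, q = m + 1 := ⟨q - 1, by have := h.qpos; omega⟩
  have h1 := (key m).2
  have h2 : y (j + m) = y (j - 1) := by
    have h3 := h.pery (j - 1)
    have e : j - 1 + (q:ℤ) = j + m := by rw [hm]; push_cast; ring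
    rw [e] at h3
    exact h3
  rw [h2] at h1
  have hne : ((m:ℂ) + 1) * a ≠ 0 := mul_ne_zero (by exact_mod_cast Nat.succ_ne_zero m) ha
  have h4 : v (ξ j ^ r * y (j - 1)) = 1 := v_eq_one_of_sub (h.const _ hne) h1
  rw [h4] at hP
  exact lt_irrefl _ hP

/-- There are no poles of higher order. -/
theorem no_multiple (hr : 2 ≤ r) (ha : a ≠ 0) {j : ℤ} (hj : v (ξ j) < 1) : False := by
  have hr0 : r ≠ 0 := by omega
  have hξj := h.ξ_ne hr0 ha hj
  by_cases hall : ∀ n : ℕ, 1 ≤ v (ξ j ^ r * y (j + n))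
  · -- all the `P` are large
    have key : ∀ n : ℕ, v (ξ (j + n) / ξ j - 1) < 1 ∧
        v (ξ j ^ r * y (j + n) - ξ j ^ r * y j - algebraMap ℂ M (n * a)) < 1 := by
      intro n
      induction n with
      | zero => simp [hξj]
      | succ n ih =>
        obtain ⟨s1, s2⟩ := h.step hr ha hj ih.1 (hall n)
        have e0 : j + ((n + 1 : ℕ) : ℤ) = j + n + 1 := by push_cast; ring
        rw [e0]
        refine ⟨s1, ?_⟩
        have e : ξ j ^ r * y (j + n + 1) - ξ j ^ r * y j - algebraMap ℂ M ((n + 1 : ℕ) * a) =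
            (ξ j ^ r * (y (j + n + 1) - y (j + n)) - algebraMap ℂ M a) +
            (ξ j ^ r * y (j + n) - ξ j ^ r * y j - algebraMap ℂ M (n * a)) := by
          simp only [map_mul, map_natCast]
          push_cast
          ring
        rw [e]
        exact v_add_lt s2 ih.2
    have h1 := (key q).2
    rw [h.pery j, sub_self, zero_sub, Valuation.map_neg] at h1
    have h2 := eq_zero_of_lt h.const h1
    rcases mul_eq_zero.1 h2 with h3 | h3
    · have := h.qpos
      have h4 : q = 0 := by exact_mod_cast h3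
      omega
    · exact ha h3
  · push Not at hall
    classical
    set n := Nat.find hall with hn
    have hn1 : v (ξ j ^ r * y (j + n)) < 1 := Nat.find_spec hall
    have hn2 : ∀ m < n, 1 ≤ v (ξ j ^ r * y (j + m)) := fun m hm => not_lt.1 (Nat.find_min hall hm)
    have key : ∀ m ≤ n, v (ξ (j + (m:ℤ)) / ξ j - 1) < 1 := by
      intro m
      induction m with
      | zero => intro _; simp [hξj]
      | succ m ih =>
        intro hm
        have e0 : j + ((m + 1 : ℕ) : ℤ) = j + m + 1 := by push_cast; ring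
        rw [e0]
        exact (h.step hr ha hj (ih (by omega)) (hn2 m (by omega))).1
    have h1 := key n le_rfl
    have h2 : v (ξ (j + n) / ξ j) = 1 := v_eq_one_of_sub (by simp) h1
    have h3 : v (ξ (j + n)) = v (ξ j) := by
      rw [map_div₀] at h2
      have h4 : v (ξ j) ≠ 0 := by
        rw [Ne, map_eq_zero]
        exact hξj
      field_simp at h2
      exact h2
    -- time reversal
    refine (h.reverse).growth (j := -(j + n)) hr ha ?_ ?_
    · simp only [neg_neg]
      rw [h3]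
      exact hj
    · have e : -(-(j + (n:ℤ)) - 1) - 1 = j + n := by ring
      simp only [neg_neg, e]
      rw [mul_neg, Valuation.map_neg, map_mul, map_pow, h3, ← map_pow, ← map_mul]
      exact hn1

/-- Residues at the simple poles. -/
theorem simple (hr : r = 1) {j : ℤ} (hj : v (ξ j) < 1) :
    a = -2 ∨ ∃ K : ℕ, 1 ≤ K ∧ (K:ℂ) * (a + 2) = 2 := by
  subst hr
  have hstep : ∀ k, v (ξ (k + 1)) < 1 →
      v (ξ (k + 1) * y (k + 1) - ξ k * y k - algebraMap ℂ M (a + 2)) < 1 := by
    intro k hk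
    have h1 := h.loc (k + 1) hk
    have e0 : k + 1 - 1 = k := by ring
    rw [e0, pow_one] at h1
    have h2 := h.rel k
    have e : ξ (k + 1) * y (k + 1) - ξ k * y k - algebraMap ℂ M (a + 2) =
        ξ (k + 1) * (y (k + 1) - y k) - algebraMap ℂ M a := by
      have e3 : algebraMap ℂ M (a + 2) = algebraMap ℂ M a + 2 := by
        rw [map_add, map_ofNat]
      rw [e3]
      linear_combination h2
    rw [e]
    exact h1
  by_cases hall : ∀ k, v (ξ k) < 1
  · left
    have key : ∀ n : ℕ, v (ξ n * y n - ξ 0 * y 0 - algebraMap ℂ M (n * (a + 2))) < 1 := by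
      intro n
      induction n with
      | zero => simp
      | succ n ih =>
        have h1 := hstep n (hall _)
        have e : ξ ((n + 1 : ℕ) : ℤ) * y ((n + 1 : ℕ) : ℤ) - ξ 0 * y 0 -
            algebraMap ℂ M ((n + 1 : ℕ) * (a + 2)) =
            (ξ (n + 1) * y (n + 1) - ξ n * y n - algebraMap ℂ M (a + 2)) +
            (ξ n * y n - ξ 0 * y 0 - algebraMap ℂ M (n * (a + 2))) := by
          simp only [map_mul, map_natCast]
          push_cast
          ring
        rw [e]
        exact v_add_lt h1 ih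
    have h1 := key q
    have h2 : ξ (q:ℤ) = ξ 0 := by simpa using h.perξ 0
    have h3 : y (q:ℤ) = y 0 := by simpa using h.pery 0
    rw [h2, h3, sub_self, zero_sub, Valuation.map_neg] at h1
    have h4 := eq_zero_of_lt h.const h1
    rcases mul_eq_zero.1 h4 with h5 | h5
    · have := h.qpos
      have h6 : q = 0 := by exact_mod_cast h5
      omega
    · linear_combination h5
  · right
    push Not at hall
    obtain ⟨k₁, hk₁⟩ := hall
    -- an entrance
    obtain ⟨k₀, hk₀, hk₀'⟩ : ∃ k₀, 1 ≤ v (ξ k₀) ∧ v (ξ (k₀ + 1)) < 1 := by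
      by_contra hno
      push Not at hno
      have h1 : ∀ n : ℕ, 1 ≤ v (ξ (k₁ + n)) := by
        intro n
        induction n with
        | zero => simpa using hk₁
        | succ n ih =>
          have := hno (k₁ + n) ih
          have e : k₁ + ((n + 1 : ℕ) : ℤ) = k₁ + n + 1 := by push_cast; ring
          rw [e]
          exact this
      have hper : ∀ (m : ℕ) (k : ℤ), ξ (k + m * q) = ξ k := by
        intro m
        induction m with
        | zero => intro k; simp
        | succ m ih =>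
          intro k
          have e : k + ((m + 1 : ℕ) : ℤ) * q = (k + m * q) + q := by push_cast; ring
          rw [e, h.perξ, ih]
      -- a large multiple of the period
      obtain ⟨m, hm⟩ : ∃ m : ℕ, k₁ ≤ j + m * q := by
        refine ⟨(k₁ - j).toNat, ?_⟩
        have h2 : k₁ - j ≤ ((k₁ - j).toNat : ℤ) := Int.self_le_toNat _
        have h3 : (1:ℤ) ≤ q := by exact_mod_cast h.qpos
        have h4 : (0:ℤ) ≤ ((k₁ - j).toNat : ℤ) := by positivity
        nlinarith
      obtain ⟨n, hn⟩ := Int.eq_ofNat_of_zero_le (by linarith : 0 ≤ j + m * q - k₁)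
      have h5 := h1 n
      have e : k₁ + (n:ℤ) = j + m * q := by rw [← hn]; ring
      rw [e, hper] at h5
      exact absurd hj (not_lt.2 h5)
    -- the exit
    have hexit : ∃ n : ℕ, 1 ≤ v (ξ (k₀ + 1 + (n + 1 : ℕ))) := by
      refine ⟨q - 1 + (q - 1), ?_⟩
      have e : k₀ + 1 + ((q - 1 + (q - 1) + 1 : ℕ) : ℤ) = k₀ + q + q := by
        have := h.qpos
        push_cast [Nat.cast_sub (by omega : 1 ≤ q)]
        ring
      rw [e, h.perξ, h.perξ]
      exact hk₀
    classical
    set K := Nat.find hexit with hK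
    have hKe : 1 ≤ v (ξ (k₀ + 1 + (K + 1 : ℕ))) := Nat.find_spec hexit
    have hKi : ∀ i : ℕ, i ≤ K → v (ξ (k₀ + 1 + i)) < 1 := by
      intro i hi
      rcases Nat.eq_zero_or_pos i with rfl | hi0
      · simpa using hk₀'
      · obtain ⟨i', rfl⟩ : ∃ i', i = i' + 1 := ⟨i - 1, by omega⟩
        exact not_le.1 (Nat.find_min hexit (by omega))
    -- `y` is finite at the entrance and the exit
    have hy0 : v (y k₀) ≤ 1 := by
      have h1 := h.rel k₀
      have h2 : v (ξ (k₀ + 1) - ξ k₀) = v (ξ k₀) :=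
        Valuation.map_sub_eq_of_lt_right v (hk₀'.trans_le hk₀)
      have h3 : v (y k₀) * v (ξ k₀) = 1 := by
        rw [← h2, ← map_mul, h1, h.v_two]
      calc v (y k₀) = v (y k₀) * 1 := (mul_one _).symm
        _ ≤ v (y k₀) * v (ξ k₀) := mul_le_mul_right hk₀ _
        _ = 1 := h3
    have hyK : v (y (k₀ + 1 + K)) ≤ 1 := by
      have h1 := h.rel (k₀ + 1 + K)
      have e : k₀ + 1 + (K:ℤ) + 1 = k₀ + 1 + (K + 1 : ℕ) := by push_cast; ring
      rw [e] at h1
      have h2 : v (ξ (k₀ + 1 + (K + 1 : ℕ)) - ξ (k₀ + 1 + K)) = v (ξ (k₀ + 1 + (K + 1 : ℕ))) :=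
        Valuation.map_sub_eq_of_lt_left v ((hKi K le_rfl).trans_le hKe)
      have h3 : v (y (k₀ + 1 + K)) * v (ξ (k₀ + 1 + (K + 1 : ℕ))) = 1 := by
        rw [← h2, ← map_mul, h1, h.v_two]
      calc v (y (k₀ + 1 + K)) = v (y (k₀ + 1 + K)) * 1 := (mul_one _).symm
        _ ≤ v (y (k₀ + 1 + K)) * v (ξ (k₀ + 1 + (K + 1 : ℕ))) := mul_le_mul_right hKe _
        _ = 1 := h3
    have key : ∀ i : ℕ, i ≤ K → v (ξ (k₀ + 1 + i) * y (k₀ + 1 + i) -
        algebraMap ℂ M (a + i * (a + 2))) < 1 := by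
      intro i
      induction i with
      | zero =>
        intro _
        have h1 := h.loc (k₀ + 1) hk₀'
        have e0 : k₀ + 1 - 1 = k₀ := by ring
        rw [e0, pow_one] at h1
        have e : ξ (k₀ + 1 + (0:ℕ)) * y (k₀ + 1 + (0:ℕ)) -
            algebraMap ℂ M (a + ((0:ℕ):ℂ) * (a + 2)) =
            (ξ (k₀ + 1) * (y (k₀ + 1) - y k₀) - algebraMap ℂ M a) + ξ (k₀ + 1) * y k₀ := by
          simp
          ring
        rw [e]
        refine v_add_lt h1 ?_
        rw [map_mul]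
        calc v (ξ (k₀ + 1)) * v (y k₀) ≤ v (ξ (k₀ + 1)) * 1 := mul_le_mul_right hy0 _
          _ = v (ξ (k₀ + 1)) := mul_one _
          _ < 1 := hk₀'
      | succ i ih =>
        intro hi
        have h1 := ih (by omega)
        have h2 := hKi (i + 1) hi
        have e0 : k₀ + 1 + ((i + 1 : ℕ) : ℤ) = k₀ + 1 + i + 1 := by push_cast; ring
        rw [e0] at h2 ⊢
        have h3 := hstep (k₀ + 1 + i) h2
        have e : ξ (k₀ + 1 + i + 1) * y (k₀ + 1 + i + 1) -
            algebraMap ℂ M (a + ((i + 1 : ℕ) : ℂ) * (a + 2)) =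
            (ξ (k₀ + 1 + i + 1) * y (k₀ + 1 + i + 1) - ξ (k₀ + 1 + i) * y (k₀ + 1 + i) -
              algebraMap ℂ M (a + 2)) +
            (ξ (k₀ + 1 + i) * y (k₀ + 1 + i) - algebraMap ℂ M (a + i * (a + 2))) := by
          simp only [map_mul, map_natCast, map_add]
          push_cast
          ring
        rw [e]
        exact v_add_lt h3 h1
    have h1 := key K le_rfl
    have h2 : v (ξ (k₀ + 1 + K) * y (k₀ + 1 + K)) < 1 := by
      rw [map_mul]
      calc v (ξ (k₀ + 1 + K)) * v (y (k₀ + 1 + K)) ≤ v (ξ (k₀ + 1 + K)) * 1 :=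
            mul_le_mul_right hyK _
        _ = v (ξ (k₀ + 1 + K)) := mul_one _
        _ < 1 := hKi K le_rfl
    have h3 : v (algebraMap ℂ M (a + K * (a + 2))) < 1 := by
      have e : algebraMap ℂ M (a + K * (a + 2)) = ξ (k₀ + 1 + K) * y (k₀ + 1 + K) -
        (ξ (k₀ + 1 + K) * y (k₀ + 1 + K) - algebraMap ℂ M (a + K * (a + 2))) := by ring
      rw [e]
      exact v_sub_lt h2 h1
    have h4 := eq_zero_of_lt h.const h3
    refine ⟨K + 1, by omega, ?_⟩
    push_cast
    linear_combination h4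

end Rec

end Rec

end Pool.Agent.MP_ae5b4e_an_rat
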