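import Mathlib
import Pool.Agent.Lib.MP_ae5b4e_an_rat.Place

/-!
Residues of a rational function for which the recursion has a transcendental periodic solution.
-/

noncomputable section

namespace Pool.Agent.MP_ae5b4e_an_rat

open Polynomial

section

variable {M : Type*} [Field M] [Algebra ℂ M] {Γ : Type*} [LinearOrderedCommGroupWithZero Γ]
  {v : Valuation M Γ}

lemma v_aeval_le (hc : ∀ c : ℂ, c ≠ 0 → v (algebraMap ℂ M c) = 1) {x : M} (hx : v x ≤ 1)
    (P : ℂ[X]) : v (aeval x P) ≤ 1 := by
  rw [aeval_eq_sum_range]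
  refine v.map_sum_le ?_
  intro i _
  rw [Algebra.smul_def, map_mul, map_pow]
  have h1 : v (algebraMap ℂ M (P.coeff i)) ≤ 1 := by
    rcases eq_or_ne (P.coeff i) 0 with h | h
    · rw [h]; simp
    · exact (hc _ h).le
  have h2 : v x ^ i ≤ 1 := pow_le_one₀ zero_le hx
  exact mul_le_one' h1 h2

lemma v_aeval_sub (hc : ∀ c : ℂ, c ≠ 0 → v (algebraMap ℂ M c) = 1) {x : M} {z : ℂ}
    (hx : v (x - algebraMap ℂ M z) < 1) (P : ℂ[X]) :
    v (aeval x P - algebraMap ℂ M (eval z P)) < 1 := by
  have h1 : v x ≤ 1 := by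
    refine v_le_one_of_sub (z := algebraMap ℂ M z) ?_ hx
    rcases eq_or_ne z 0 with h | h
    · rw [h]; simp
    · exact (hc _ h).le
  obtain ⟨G, hG⟩ : X - C z ∣ P - C (eval z P) := X_sub_C_dvd_sub_C_eval
  have h2 : aeval x P - algebraMap ℂ M (eval z P) = (x - algebraMap ℂ M z) * aeval x G := by
    have h3 := congrArg (aeval x) hG
    simpa using h3
  rw [h2, map_mul]
  calc v (x - algebraMap ℂ M z) * v (aeval x G) ≤ v (x - algebraMap ℂ M z) * 1 :=
        mul_le_mul_right (v_aeval_le hc h1 G) _
    _ = v (x - algebraMap ℂ M z) := mul_one _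
    _ < 1 := hx

end

/-- A rational function for which the recursion has a transcendental periodic solution has only
simple poles, with special residues. -/
theorem residue {M : Type*} [Field M] [Algebra ℂ M] {N D : ℂ[X]} {x y : ℤ → M} {q : ℕ}
    (hq : 0 < q) (hx : ∀ k, Transcendental ℂ (x k)) (hrel : ∀ k, y k * (x (k + 1) - x k) = 2)
    (hperx : ∀ k, x (k + q) = x k) (hpery : ∀ k, y (k + q) = y k)
    (hκ : ∀ k, aeval (x k) D * (y k - y (k - 1)) = aeval (x k) N) (hD0 : D ≠ 0) {z : ℂ}
    (hz : eval z D = 0) (hN : eval z N ≠ 0) :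
    eval z (derivative D) ≠ 0 ∧ (eval z N / eval z (derivative D) = -2 ∨
      ∃ K : ℕ, 1 ≤ K ∧ (K:ℂ) * (eval z N / eval z (derivative D) + 2) = 2) := by
  obtain ⟨A, hA1, hA2⟩ := exists_place (hx 0) z
  set v := A.valuation with hv
  obtain ⟨E, hE, hEnd⟩ := exists_eq_pow_rootMultiplicity_mul_and_not_dvd D hD0 z
  set r := rootMultiplicity z D with hr
  have hr1 : 1 ≤ r := (rootMultiplicity_pos hD0).2 hz
  have hEz : eval z E ≠ 0 := by
    intro h
    exact hEnd (dvd_iff_isRoot.2 h)
  set a : ℂ := eval z N / eval z E with ha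
  have ha0 : a ≠ 0 := div_ne_zero hN hEz
  have hrec : Rec v (fun k => x k - algebraMap ℂ M z) y q r a := by
    refine ⟨hA1, ?_, hq, ?_, hpery, ?_⟩
    · intro k
      rw [← hrel k]
      ring
    · intro k
      simp only [hperx]
    · intro k hk
      have h1 := hκ k
      have h2 : aeval (x k) D = (x k - algebraMap ℂ M z) ^ r * aeval (x k) E := by
        conv_lhs => rw [hE]
        simp
      rw [h2] at h1
      have h3 : v (aeval (x k) E - algebraMap ℂ M (eval z E)) < 1 := v_aeval_sub hA1 hk E
      have h4 : v (aeval (x k) N - algebraMap ℂ M (eval z N)) < 1 := v_aeval_sub hA1 hk N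
      have h5 : v (aeval (x k) E) = 1 := v_eq_one_of_sub (hA1 _ hEz) h3
      have h6 : aeval (x k) E ≠ 0 := by
        intro h0
        rw [h0, map_zero] at h5
        exact zero_ne_one h5
      have h7 : algebraMap ℂ M (eval z E) ≠ 0 := by
        intro h0
        have := hA1 _ hEz
        rw [h0, map_zero] at this
        exact zero_ne_one this
      have h8 : algebraMap ℂ M a = algebraMap ℂ M (eval z N) / algebraMap ℂ M (eval z E) := by
        rw [ha, map_div₀]
      have h9 : (x k - algebraMap ℂ M z) ^ r * (y k - y (k - 1)) - algebraMap ℂ M a =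
          ((aeval (x k) N - algebraMap ℂ M (eval z N)) * algebraMap ℂ M (eval z E) -
            algebraMap ℂ M (eval z N) * (aeval (x k) E - algebraMap ℂ M (eval z E))) /
            (aeval (x k) E * algebraMap ℂ M (eval z E)) := by
        rw [h8, eq_div_iff (mul_ne_zero h6 h7)]
        field_simp
        linear_combination (algebraMap ℂ M (eval z E)) * h1
      rw [h9, map_div₀, map_mul, h5, hA1 _ hEz, mul_one, div_one]
      refine v_sub_lt ?_ ?_
      · rw [map_mul, hA1 _ hEz, mul_one]
        exact h4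
      · rw [map_mul, hA1 _ hN, one_mul]
        exact h3
  have hr2 : r = 1 := by
    by_contra hne
    exact hrec.no_multiple (by omega) ha0 hA2
  have hder : eval z (derivative D) = eval z E := by
    rw [hr2, pow_one] at hE
    rw [hE, derivative_mul]
    simp
  rw [hder]
  exact ⟨hEz, hrec.simple hr2 hA2⟩

/-- Over an algebraically closed field, non-constant elements are transcendental. -/
lemma transcendental_of_ne {M : Type*} [Field M] [Algebra ℂ M] {x : M}
    (hx : ∀ z : ℂ, x ≠ algebraMap ℂ M z) : Transcendental ℂ x := by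
  intro halg
  have hint : IsIntegral ℂ x := halg.isIntegral
  have h1 : (minpoly ℂ x).degree = 1 :=
    IsAlgClosed.degree_eq_one_of_irreducible ℂ (minpoly.irreducible hint)
  obtain ⟨z, hz⟩ := minpoly.mem_range_of_degree_eq_one ℂ x h1
  exact hx z hz.symm

end Pool.Agent.MP_ae5b4e_an_rat
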