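import Mathlib
import Pool.Agent.Lib.MP_ae5b4e_an_rat.Residue

/-!
The residue theorem for families of real sequences: germs at infinity of sequences form a field.
-/

noncomputable section

namespace Pool.Agent.MP_ae5b4e_an_rat

open Polynomial Filter

/-- the field of germs of sequences -/
abbrev GM : Type := Germ (hyperfilter ℕ : Filter ℕ) ℂ

/-- the germ of a sequence -/
def toGM : (ℕ → ℂ) →+* GM := Germ.coeRingHom (hyperfilter ℕ : Filter ℕ)

instance algGM : Algebra ℂ GM := (toGM.comp (Pi.constRingHom ℕ ℂ)).toAlgebra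

lemma algebraMap_GM (z : ℂ) : algebraMap ℂ GM z = toGM (fun _ => z) := rfl

lemma toGM_eq {f g : ℕ → ℂ} (h : ∀ᶠ n in cofinite, f n = g n) : toGM f = toGM g :=
  Germ.coe_eq.2 (hyperfilter_le_cofinite h)

lemma toGM_eq_iff {f g : ℕ → ℂ} : toGM f = toGM g ↔ ∀ᶠ n in hyperfilter ℕ, f n = g n :=
  Germ.coe_eq

/-- the germ map as an algebra homomorphism -/
def toGMa : (ℕ → ℂ) →ₐ[ℂ] GM :=
  { toGM with commutes' := fun _ => rfl }

lemma aeval_toGM (f : ℕ → ℂ) (P : ℂ[X]) : aeval (toGM f) P = toGM (fun n => eval (f n) P) := by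
  have h1 : aeval (toGMa f) P = toGMa (aeval f P) := aeval_algHom_apply toGMa f P
  have h2 : aeval f P = fun n => eval (f n) P := by
    funext n
    have h3 := (aeval_algHom_apply (Pi.evalAlgHom ℂ (fun _ : ℕ => ℂ) n) f P).symm
    have h4 : (Pi.evalAlgHom ℂ (fun _ : ℕ => ℂ) n) (aeval f P) = (aeval f P) n := rfl
    have h5 : (Pi.evalAlgHom ℂ (fun _ : ℕ => ℂ) n) f = f n := rfl
    rw [h4, h5, coe_aeval_eq_eval] at h3
    exact h3
  rw [h2] at h1
  exact h1

/-- The residues of a real rational function for which the recursion has, for infinitely many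
initial values, a periodic solution. -/
theorem residue_seq {N D : ℝ[X]} {x y : ℤ → ℕ → ℝ} {q : ℕ} (hq : 0 < q)
    (hfin : ∀ k (t : ℝ), {n | x k n = t}.Finite)
    (hrel : ∀ k, ∀ᶠ n in cofinite, y k n * (x (k + 1) n - x k n) = 2)
    (hperx : ∀ k n, x (k + q) n = x k n) (hpery : ∀ k n, y (k + q) n = y k n)
    (hκ : ∀ k, ∀ᶠ n in cofinite,
      eval (x k n) D * (y k n - y (k - 1) n) = eval (x k n) N) (hD0 : D ≠ 0) {z : ℂ}
    (hz : aeval z D = 0) (hN : aeval z N ≠ 0) :
    aeval z (derivative D) ≠ 0 ∧ (aeval z N / aeval z (derivative D) = -2 ∨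
      ∃ K : ℕ, 1 ≤ K ∧ (K:ℂ) * (aeval z N / aeval z (derivative D) + 2) = 2) := by
  set N' : ℂ[X] := N.map (algebraMap ℝ ℂ) with hN'
  set D' : ℂ[X] := D.map (algebraMap ℝ ℂ) with hD'
  have e1 : ∀ P : ℝ[X], aeval z P = eval z (P.map (algebraMap ℝ ℂ)) := by
    intro P
    rw [aeval_def, eval_map]
  have e2 : ∀ (P : ℝ[X]) (t : ℝ), eval (t:ℂ) (P.map (algebraMap ℝ ℂ)) = ((eval t P : ℝ) : ℂ) := by
    intro P t
    rw [eval_map]
    exact (eval₂_at_apply (algebraMap ℝ ℂ) t)
  rw [e1] at hz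
  rw [e1] at hN
  rw [e1, e1, ← derivative_map]
  set X' : ℤ → GM := fun k => toGM (fun n => ((x k n : ℝ) : ℂ)) with hX'
  set Y' : ℤ → GM := fun k => toGM (fun n => ((y k n : ℝ) : ℂ)) with hY'
  refine residue (x := X') (y := Y') hq ?_ ?_ ?_ ?_ ?_ ?_ hz hN
  · intro k
    refine transcendental_of_ne fun w hw => ?_
    rw [algebraMap_GM] at hw
    have h1 : ∀ᶠ n in hyperfilter ℕ, ((x k n : ℝ) : ℂ) = w := toGM_eq_iff.1 hw
    have h2 : {n | ((x k n : ℝ) : ℂ) = w}.Finite := by
      refine (hfin k w.re).subset ?_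
      intro n hn
      have h3 : ((x k n : ℝ) : ℂ) = w := hn
      show x k n = w.re
      rw [← h3]
      simp
    exact notMem_hyperfilter_of_finite h2 h1
  · intro k
    have h1 : Y' k * (X' (k + 1) - X' k) =
        toGM (fun n => ((y k n : ℝ) : ℂ) * (((x (k + 1) n : ℝ) : ℂ) - ((x k n : ℝ) : ℂ))) := by
      simp only [hX', hY']
      rw [← map_sub, ← map_mul]
      rfl
    have h2 : (2 : GM) = toGM (fun _ => (2:ℂ)) := by
      have h3 := (map_ofNat toGM 2).symm
      rw [h3]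
      rfl
    rw [h1, h2]
    refine toGM_eq ?_
    filter_upwards [hrel k] with n hn
    exact_mod_cast hn
  · intro k
    simp only [hX', hperx]
  · intro k
    simp only [hY', hpery]
  · intro k
    have h1 : aeval (X' k) D' * (Y' k - Y' (k - 1)) =
        toGM (fun n => eval ((x k n : ℝ) : ℂ) D' *
          (((y k n : ℝ) : ℂ) - ((y (k - 1) n : ℝ) : ℂ))) := by
      simp only [hX', hY']
      rw [aeval_toGM, ← map_sub, ← map_mul]
      rfl
    have h2 : aeval (X' k) N' = toGM (fun n => eval ((x k n : ℝ) : ℂ) N') := aeval_toGM _ _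
    rw [h1, h2]
    refine toGM_eq ?_
    filter_upwards [hκ k] with n hn
    rw [hD', hN', e2, e2]
    exact_mod_cast hn
  · exact (Polynomial.map_ne_zero_iff (algebraMap ℝ ℂ).injective).2 hD0

end Pool.Agent.MP_ae5b4e_an_rat
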