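import Mathlib
import Pool.Agent.Lib.MP_ae5b4e_an_rat.Rotation
import Pool.Agent.Lib.MP_ae5b4e_an_rat.Seq
import Pool.Agent.Lib.MP_ae5b4e_an_rat.Quartic

/-!
The recursion on a periodic leaf.
-/

noncomputable section

namespace Pool.Agent.MP_ae5b4e_an_rat

open Real Set Filter Topology Polynomial

/-- the half angle coordinate of the next tangency point -/
lemma tan_half_next {a u : ℝ} (h1 : cos (a / 2) ≠ 0)
    (h2 : cos ((a + π - 2 * arctan u) / 2) ≠ 0) :
    tan ((a + π - 2 * arctan u) / 2) * (u - tan (a / 2)) = 1 + tan (a / 2) * u ∧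
      u - tan (a / 2) ≠ 0 := by
  set φ := arctan u with hφ
  have hu : tan φ = u := tan_arctan u
  have hcφ : cos φ ≠ 0 := (cos_arctan_pos u).ne'
  have e : (a + π - 2 * φ) / 2 = (a / 2 - φ) + π / 2 := by ring
  rw [e] at h2 ⊢
  rw [cos_add_pi_div_two] at h2
  have hs : sin (a / 2 - φ) = cos φ * cos (a / 2) * (tan (a / 2) - u) := by
    rw [sin_sub, ← hu, tan_eq_sin_div_cos, tan_eq_sin_div_cos]
    field_simp
  have hc : cos (a / 2 - φ) = cos φ * cos (a / 2) * (1 + tan (a / 2) * u) := by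
    rw [cos_sub, ← hu, tan_eq_sin_div_cos, tan_eq_sin_div_cos]
    field_simp
  have hne : u - tan (a / 2) ≠ 0 := by
    intro h0
    apply h2
    rw [hs]
    have : tan (a / 2) - u = 0 := by linarith
    rw [this]
    ring
  refine ⟨?_, hne⟩
  have ht : tan (a / 2 - φ + π / 2) = cos (a / 2 - φ) / -sin (a / 2 - φ) := by
    rw [tan_eq_sin_div_cos, sin_add_pi_div_two, cos_add_pi_div_two]
  rw [ht, hs, hc]
  have hne' : tan (a / 2) - u ≠ 0 := by
    intro h0
    apply hne
    linarith
  field_simp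
  ring

/-- values of the half angle coordinate are taken finitely often -/
lemma finite_tan_eq {a : ℕ → ℝ} {b : ℝ} (hinj : Function.Injective a)
    (hwin : ∀ n, a n ∈ Ioo b (b + 2 * π)) (t : ℝ) : {n | tan (a n / 2) = t}.Finite := by
  have hsin : ∀ m n, sin (a m / 2 - a n / 2) = 0 → m = n := by
    intro m n h0
    have h1 := hwin m
    have h2 := hwin n
    have h3 : a m / 2 - a n / 2 = 0 := by
      refine (sin_eq_zero_iff_of_lt_of_lt ?_ ?_).1 h0
      · linarith [h1.1, h2.2]
      · linarith [h1.2, h2.1]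
    exact hinj (by linarith)
  have hs1 : {n | cos (a n / 2) = 0}.Subsingleton := by
    intro m hm n hn
    apply hsin
    have h1 : cos (a m / 2) = 0 := hm
    have h2 : cos (a n / 2) = 0 := hn
    rw [sin_sub, h1, h2]
    ring
  have hs2 : {n | cos (a n / 2) ≠ 0 ∧ tan (a n / 2) = t}.Subsingleton := by
    rintro m ⟨hm, hm'⟩ n ⟨hn, hn'⟩
    apply hsin
    rw [tan_eq_sin_div_cos, div_eq_iff hm] at hm'
    rw [tan_eq_sin_div_cos, div_eq_iff hn] at hn'
    rw [sin_sub, hm', hn']
    ring
  refine (hs1.finite.union hs2.finite).subset ?_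
  intro n hn
  by_cases h : cos (a n / 2) = 0
  · exact Or.inl h
  · exact Or.inr ⟨h, hn⟩

lemma finite_cos_eq {a : ℕ → ℝ} {b : ℝ} (hinj : Function.Injective a)
    (hwin : ∀ n, a n ∈ Ioo b (b + 2 * π)) : {n | cos (a n / 2) = 0}.Finite := by
  have hs1 : {n | cos (a n / 2) = 0}.Subsingleton := by
    intro m hm n hn
    have h1 : cos (a m / 2) = 0 := hm
    have h2 : cos (a n / 2) = 0 := hn
    have h0 : sin (a m / 2 - a n / 2) = 0 := by
      rw [sin_sub, h1, h2]
      ring
    have h3 := hwin m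
    have h4 := hwin n
    have h5 : a m / 2 - a n / 2 = 0 := by
      refine (sin_eq_zero_iff_of_lt_of_lt ?_ ?_).1 h0
      · linarith [h3.1, h4.2]
      · linarith [h3.2, h4.1]
    exact hinj (by linarith)
  exact hs1.finite

namespace LFam

variable {U : ℝ → ℝ → ℝ} {κ : ℝ → ℝ} (h : LFam U κ)
include h

/-- the residues of `κ` as a rational function of `tan (θ/2)` -/
theorem residues {N D : ℝ[X]} (hD0 : D ≠ 0)
    (hrat : ∃ T : Set ℝ, T.Finite ∧ ∀ θ, cos (θ / 2) ≠ 0 → tan (θ / 2) ∉ T →
      D.eval (tan (θ / 2)) * (2 * (κ θ - 2 * tan (θ / 2)) / (1 + tan (θ / 2) ^ 2)) =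
        N.eval (tan (θ / 2))) {z : ℂ}
    (hz : aeval z D = 0) (hN : aeval z N ≠ 0) :
    aeval z (derivative D) ≠ 0 ∧ (aeval z N / aeval z (derivative D) = -2 ∨
      ∃ K : ℕ, 1 ≤ K ∧ (K:ℂ) * (aeval z N / aeval z (derivative D) + 2) = 2) := by
  obtain ⟨c, hc, q, hq, hper⟩ := h.exists_periodic
  obtain ⟨T, hT, hrat⟩ := hrat
  set τ := nxt U c with hτ
  have hmono : StrictMono τ := h.strictMono_nxt hc
  set θ₀ : ℕ → ℝ := fun n => 1 / ((n:ℝ) + 1) with hθ₀
  have hθ₀i : Function.Injective θ₀ := by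
    intro m n hmn
    simp only [hθ₀] at hmn
    have h1 : (m:ℝ) + 1 = n + 1 := by
      have h2 := congrArg (fun t => 1 / t) hmn
      simpa using h2
    exact_mod_cast (by linarith : (m:ℝ) = n)
  have hθ₀w : ∀ n, θ₀ n ∈ Ioo (0:ℝ) (0 + 2 * π) := by
    intro n
    have h1 : (0:ℝ) < n + 1 := by positivity
    refine ⟨by simp only [hθ₀]; positivity, ?_⟩
    have h2 : θ₀ n ≤ 1 := by
      simp only [hθ₀]
      rw [div_le_one h1]
      have : (0:ℝ) ≤ n := by positivity
      linarith
    have := pi_gt_three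
    linarith
  -- the orbits
  set a : ℕ → ℕ → ℝ := fun i n => τ^[i] (θ₀ n) with ha
  have hiterm : ∀ i, StrictMono (τ^[i]) := fun i => hmono.iterate i
  have hiterper : ∀ i θ, τ^[i] (θ + 2 * π) = τ^[i] θ + 2 * π := by
    intro i
    induction i with
    | zero => intro θ; rfl
    | succ i ih =>
      intro θ
      have h1 : τ (τ^[i] θ + 2 * π) = τ (τ^[i] θ) + 2 * π := h.nxt_per hc _
      rw [Function.iterate_succ_apply', ih, h1, ← Function.iterate_succ_apply' τ i θ]
  have hai : ∀ i, Function.Injective (a i) := fun i => (hiterm i).injective.comp hθ₀i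
  have haw : ∀ i n, a i n ∈ Ioo (τ^[i] 0) (τ^[i] 0 + 2 * π) := by
    intro i n
    have h1 := hθ₀w n
    refine ⟨hiterm i h1.1, ?_⟩
    rw [← hiterper]
    exact hiterm i h1.2
  have hstep : ∀ i n, a (i + 1) n = a i n + π - 2 * arctan (U c (a i n)) := by
    intro i n
    simp only [ha]
    rw [Function.iterate_succ_apply']
    rfl
  have hshift : ∀ i n, a (i + q) n = a i n + 2 * π := by
    intro i n
    simp only [ha]
    rw [Function.iterate_add_apply, hper, hiterper]
  set xx : ℕ → ℕ → ℝ := fun i n => tan (a i n / 2) with hxx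
  set yy : ℕ → ℕ → ℝ := fun i n => 2 * (U c (a i n) - xx i n) / (1 + xx i n ^ 2) with hyy
  have hxq : ∀ i n, xx (i + q) n = xx i n := by
    intro i n
    simp only [hxx]
    rw [hshift]
    have e : (a i n + 2 * π) / 2 = a i n / 2 + π := by ring
    rw [e, tan_add_pi]
  have hyq : ∀ i n, yy (i + q) n = yy i n := by
    intro i n
    simp only [hyy, hxq]
    rw [hshift, h.per c hc]
  have hmod : ∀ (g : ℕ → ℕ → ℝ), (∀ i n, g (i + q) n = g i n) → ∀ i n, g (i % q) n = g i n := by
    intro g hg i n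
    have h1 : Function.Periodic (fun i => g i n) q := fun i => hg i n
    exact h1.map_mod_nat i
  -- the relations
  have hrel : ∀ i, ∀ᶠ n in cofinite, yy i n * (xx (i + 1) n - xx i n) = 2 := by
    intro i
    have e1 : ∀ᶠ n in cofinite, ¬ cos (a i n / 2) = 0 :=
      (finite_cos_eq (hai i) (haw i)).compl_mem_cofinite
    have e2 : ∀ᶠ n in cofinite, ¬ cos (a (i + 1) n / 2) = 0 :=
      (finite_cos_eq (hai (i + 1)) (haw (i + 1))).compl_mem_cofinite
    filter_upwards [e1, e2] with n h1 h2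
    rw [hstep] at h2
    obtain ⟨h3, h4⟩ := tan_half_next h1 h2
    have h5 : xx (i + 1) n = (1 + xx i n * U c (a i n)) / (U c (a i n) - xx i n) := by
      rw [eq_div_iff h4]
      simp only [hxx]
      rw [hstep]
      exact h3
    have h4' : U c (a i n) - xx i n ≠ 0 := h4
    have h6 : (1 + xx i n ^ 2) ≠ 0 := by positivity
    simp only [hyy]
    rw [h5]
    field_simp
    ring
  have hκ : ∀ i, ∀ᶠ n in cofinite,
      eval (xx (i + 1) n) D * (yy (i + 1) n - yy i n) = eval (xx (i + 1) n) N := by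
    intro i
    have e1 : ∀ᶠ n in cofinite, ¬ cos (a i n / 2) = 0 :=
      (finite_cos_eq (hai i) (haw i)).compl_mem_cofinite
    have e2 : ∀ᶠ n in cofinite, ¬ cos (a (i + 1) n / 2) = 0 :=
      (finite_cos_eq (hai (i + 1)) (haw (i + 1))).compl_mem_cofinite
    have e3 : ∀ᶠ n in cofinite, xx (i + 1) n ∉ T := by
      have h1 : {n | xx (i + 1) n ∈ T} = ⋃ t ∈ T, {n | tan (a (i + 1) n / 2) = t} := by
        ext n
        simp [hxx]
      have h2 : {n | xx (i + 1) n ∈ T}.Finite := by
        rw [h1]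
        exact hT.biUnion fun t _ => finite_tan_eq (hai (i + 1)) (haw (i + 1)) t
      exact h2.compl_mem_cofinite
    filter_upwards [e1, e2, e3, hrel i] with n h1 h2 h3 h4
    have h5 := hrat (a (i + 1) n) h2 h3
    rw [hstep] at h2
    obtain ⟨h6, h7⟩ := tan_half_next h1 h2
    have h8 : xx (i + 1) n * (U c (a i n) - xx i n) = 1 + xx i n * U c (a i n) := by
      simp only [hxx]
      rw [hstep]
      exact h6
    have h9 : U c (a (i + 1) n) - κ (a (i + 1) n) = U c (a i n) := by
      have h10 := h.feq c hc (a i n)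
      have h11 : nxt U c (a i n) = a (i + 1) n := by
        rw [hstep]
        rfl
      rwa [h11] at h10
    have h12 : yy (i + 1) n - yy i n =
        2 * (κ (a (i + 1) n) - 2 * xx (i + 1) n) / (1 + xx (i + 1) n ^ 2) := by
      have h13 : yy i n = 2 * (U c (a i n) + xx (i + 1) n) / (1 + xx (i + 1) n ^ 2) := by
        have h14 : (1 + xx i n ^ 2) ≠ 0 := by positivity
        have h15 : (1 + xx (i + 1) n ^ 2) ≠ 0 := by positivity
        have h16 : U c (a i n) - xx i n ≠ 0 := h7
        have h17 : xx (i + 1) n = (1 + xx i n * U c (a i n)) / (U c (a i n) - xx i n) := by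
          rw [eq_div_iff h16]
          exact h8
        simp only [hyy]
        rw [div_eq_div_iff h14 h15, h17]
        field_simp
        ring
      rw [h13]
      simp only [hyy]
      rw [← sub_div]
      congr 1
      rw [← h9]
      ring
    rw [h12]
    exact h5
  -- indices modulo q
  have hqz : (0:ℤ) < q := by exact_mod_cast hq
  set ix : ℤ → ℕ := fun k => (k % q).toNat with hix
  have hixq : ∀ k, ix (k + q) = ix k := by
    intro k
    simp only [hix, Int.add_emod_right]
  have hix1 : ∀ k, ix (k + 1) = (ix k + 1) % q := by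
    intro k
    simp only [hix]
    have h1 : 0 ≤ k % q := Int.emod_nonneg _ hqz.ne'
    have h2 : 0 ≤ (k + 1) % q := Int.emod_nonneg _ hqz.ne'
    have h3 : (((k + 1) % (q:ℤ)).toNat : ℤ) = ((((k % (q:ℤ)).toNat + 1) % q : ℕ) : ℤ) := by
      push_cast
      rw [Int.toNat_of_nonneg h1, Int.toNat_of_nonneg h2]
      simp
    exact_mod_cast h3
  refine residue_seq (x := fun k n => xx (ix k) n) (y := fun k n => yy (ix k) n) hq
    ?_ ?_ ?_ ?_ ?_ hD0 hz hN
  · intro k t
    exact finite_tan_eq (hai _) (haw _) t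
  · intro k
    filter_upwards [hrel (ix k)] with n hn
    rw [hix1, hmod xx hxq]
    exact hn
  · intro k n
    show xx (ix (k + q)) n = xx (ix k) n
    rw [hixq]
  · intro k n
    show yy (ix (k + q)) n = yy (ix k) n
    rw [hixq]
  · intro k
    have h1 : ix k = (ix (k - 1) + 1) % q := by
      rw [← hix1, sub_add_cancel]
    filter_upwards [hκ (ix (k - 1))] with n hn
    show eval (xx (ix k) n) D * (yy (ix k) n - yy (ix (k - 1)) n) = eval (xx (ix k) n) N
    rw [h1, hmod xx hxq, hmod yy hyq]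
    exact hn

end LFam

end Pool.Agent.MP_ae5b4e_an_rat
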