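import Mathlib
import Pool.Agent.Lib.MP_ae5b4e_an_rat.Orbit
import Pool.Agent.Lib.MP_ae5b4e_an.Geometry

/-!
If `κ` is a rational function of `tan (θ/2)`, then `κ = -f'/f` where `f` is the product of two
affine functions which are positive on the disc.
-/

noncomputable section

namespace Pool.Agent.MP_ae5b4e_an_rat

open Real Set Filter Topology Polynomial
open Pool.Agent.MP_ae5b4e_an (cos_two_arctan sin_two_arctan)

/-- an affine function on the circle -/
def gg (b c θ : ℝ) : ℝ := (c - 1) * cos θ + b * sin θ + (1 + c)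

/-- its derivative -/
def gd (b c θ : ℝ) : ℝ := -((c - 1) * sin θ) + b * cos θ

lemma tendsto_two_mul_div : Tendsto (fun x : ℝ => 2 * x / (1 + x ^ 2)) atTop (𝓝 0) := by
  have h1 : Tendsto (fun x : ℝ => 2 * x⁻¹) atTop (𝓝 0) := by
    simpa using (tendsto_inv_atTop_zero (𝕜 := ℝ)).const_mul 2
  refine squeeze_zero' ?_ ?_ h1
  · filter_upwards [eventually_ge_atTop (0:ℝ)] with x hx
    positivity
  · filter_upwards [eventually_gt_atTop (0:ℝ)] with x hx
    rw [div_le_iff₀ (by positivity), mul_assoc, mul_add, mul_one, sq, ← mul_assoc x⁻¹,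
      inv_mul_cancel₀ hx.ne', one_mul]
    have : 0 < x⁻¹ := inv_pos.2 hx
    linarith

lemma tendsto_four_div : Tendsto (fun x : ℝ => 4 / (1 + x ^ 2)) atTop (𝓝 0) := by
  refine tendsto_const_nhds.div_atTop ?_
  refine tendsto_atTop_mono (fun x => ?_) (tendsto_id (α := ℝ))
  show x ≤ 1 + x ^ 2
  nlinarith [sq_nonneg (x - 1), sq_nonneg x]

namespace LFam

variable {U : ℝ → ℝ → ℝ} {κ : ℝ → ℝ} (h : LFam U κ)
include h

theorem exists_factors {A B : ℝ[X]} (hB : B ≠ 0)
    (hrat : ∀ θ, cos (θ / 2) ≠ 0 → κ θ * B.eval (tan (θ / 2)) = A.eval (tan (θ / 2))) :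
    ∃ b₁ c₁ b₂ c₂ : ℝ, b₁ ^ 2 < 4 * c₁ ∧ b₂ ^ 2 < 4 * c₂ ∧
      ∀ θ, κ θ * (gg b₁ c₁ θ * gg b₂ c₂ θ) =
        -(gd b₁ c₁ θ * gg b₂ c₂ θ + gg b₁ c₁ θ * gd b₂ c₂ θ) := by
  classical
  set P : ℝ[X] := C 2 * (A - C 2 * X * B) with hP
  set Q : ℝ[X] := (1 + X ^ 2) * B with hQ
  have h1X : (1 + X ^ 2 : ℝ[X]) ≠ 0 := by
    intro h0
    have := congrArg (eval 0) h0
    simp at this
  have hQ0 : Q ≠ 0 := mul_ne_zero h1X hB
  set G := GCDMonoid.gcd P Q with hG
  have hG0 : G ≠ 0 := by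
    intro h0
    exact hQ0 ((gcd_eq_zero_iff _ _).1 h0).2
  obtain ⟨P₁, hP₁⟩ : G ∣ P := gcd_dvd_left _ _
  obtain ⟨Q₁, hQ₁⟩ : G ∣ Q := gcd_dvd_right _ _
  have hcop : IsCoprime P₁ Q₁ := by
    have h1 := isCoprime_div_gcd_div_gcd (p := P) (q := Q) hQ0
    have h2 : P / GCDMonoid.gcd P Q = P₁ := by
      rw [← hG]
      conv_lhs => rw [hP₁]
      exact mul_div_cancel_left₀ P₁ hG0
    have h3 : Q / GCDMonoid.gcd P Q = Q₁ := by
      rw [← hG]
      conv_lhs => rw [hQ₁]
      exact mul_div_cancel_left₀ Q₁ hG0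
    rwa [h2, h3] at h1
  have hQ₁0 : Q₁ ≠ 0 := by
    intro h0
    rw [h0, mul_zero] at hQ₁
    exact hQ0 hQ₁
  have hlc : Q₁.leadingCoeff ≠ 0 := leadingCoeff_ne_zero.2 hQ₁0
  have hCu : IsUnit (C Q₁.leadingCoeff⁻¹ : ℝ[X]) :=
    isUnit_C.2 (IsUnit.mk0 _ (inv_ne_zero hlc))
  set N : ℝ[X] := C Q₁.leadingCoeff⁻¹ * P₁ with hN
  set D : ℝ[X] := C Q₁.leadingCoeff⁻¹ * Q₁ with hD
  have hDm : D.Monic := by
    rw [hD, mul_comm]
    exact monic_mul_leadingCoeff_inv hQ₁0
  have hcopND : IsCoprime N D := (isCoprime_mul_unit_left hCu _ _).2 hcop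
  have hND : N * Q = P * D := by
    rw [hP₁, hQ₁, hN, hD]
    ring
  -- evaluation
  have hev : ∀ x k : ℝ, B.eval x ≠ 0 → k * B.eval x = A.eval x →
      N.eval x * (1 + x ^ 2) = 2 * (k - 2 * x) * D.eval x := by
    intro x k hBx hk
    have h1 := congrArg (eval x) hND
    simp only [hP, hQ, eval_mul, eval_sub, eval_add, eval_one, eval_pow, eval_X, eval_C] at h1
    have h2 : B.eval x * (N.eval x * (1 + x ^ 2)) = B.eval x * (2 * (k - 2 * x) * D.eval x) := by
      rw [← hk] at h1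
      linear_combination h1
    exact mul_left_cancel₀ hBx h2
  set K : ℝ → ℝ := fun x => κ (2 * arctan x) with hK
  have hKc : Continuous K := h.continuous_κ.comp (by fun_prop)
  have hKrat : ∀ x, K x * B.eval x = A.eval x := by
    intro x
    have h1 := hrat (2 * arctan x)
    have e : 2 * arctan x / 2 = arctan x := by ring
    rw [e, tan_arctan] at h1
    exact h1 (cos_arctan_pos x).ne'
  have hall : ∀ x, N.eval x * (1 + x ^ 2) = 2 * (K x - 2 * x) * D.eval x := by
    have hd : Dense ({x : ℝ | B.eval x = 0}ᶜ) := by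
      have hf : {x : ℝ | B.eval x = 0}.Finite := by
        refine (B.roots.toFinset.finite_toSet).subset ?_
        intro x hx
        simp only [Finset.mem_coe, Multiset.mem_toFinset]
        exact (mem_roots hB).2 hx
      exact hf.countable.dense_compl ℝ
    have h1 : Continuous fun x : ℝ => N.eval x * (1 + x ^ 2) := by fun_prop
    have h2 : Continuous fun x : ℝ => 2 * (K x - 2 * x) * D.eval x := by fun_prop
    have h3 := h1.ext_on hd h2 (fun x hx => hev x (K x) hx (hKrat x))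
    exact fun x => congrFun h3 x
  have hreal : ∀ x : ℝ, D.eval x ≠ 0 := by
    intro x hx
    have h1 := hall x
    rw [hx, mul_zero] at h1
    have h2 : N.eval x = 0 := by
      rcases mul_eq_zero.1 h1 with h3 | h3
      · exact h3
      · exfalso
        have : (0:ℝ) < 1 + x ^ 2 := by positivity
        linarith
    obtain ⟨a, b, hab⟩ := hcopND
    have h3 := congrArg (eval x) hab
    simp [hx, h2] at h3
  have hquot : ∀ x, N.eval x / D.eval x = 2 * (K x - 2 * x) / (1 + x ^ 2) := by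
    intro x
    have h1 : (1 + x ^ 2 : ℝ) ≠ 0 := by positivity
    rw [div_eq_div_iff (hreal x) h1]
    exact hall x
  have hdeg : (X * N + C 4 * D).degree < D.degree := by
    rw [← div_tendsto_atTop_zero_iff_degree_lt _ _ hDm.ne_zero]
    have h1 : ∀ x, eval x (X * N + C 4 * D) / eval x D =
        2 * x / (1 + x ^ 2) * K x + 4 / (1 + x ^ 2) := by
      intro x
      have h2 : eval x (X * N + C 4 * D) / eval x D = x * (N.eval x / D.eval x) + 4 := by
        have := hreal x
        simp only [eval_add, eval_mul, eval_X, eval_C]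
        field_simp
      rw [h2, hquot]
      have h3 : (1 + x ^ 2 : ℝ) ≠ 0 := by positivity
      field_simp
      ring
    simp only [h1]
    have h2 : Tendsto K atTop (𝓝 (κ (2 * (π / 2)))) := by
      refine (h.continuous_κ.tendsto _).comp ?_
      exact ((tendsto_arctan_atTop.mono_right nhdsWithin_le_nhds).const_mul 2)
    have h3 := (tendsto_two_mul_div.mul h2).add tendsto_four_div
    simpa using h3
  obtain ⟨b₁, c₁, b₂, c₂, hb₁, hb₂, hF⟩ := exists_quartic hDm hcopND hreal hdeg (by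
    intro z hz
    refine h.residues hDm.ne_zero ⟨B.roots.toFinset, Finset.finite_toSet _, ?_⟩ hz ?_
    · intro θ hθ hT
      have hBx : B.eval (tan (θ / 2)) ≠ 0 := by
        intro h0
        apply hT
        simp only [Finset.mem_coe, Multiset.mem_toFinset]
        exact (mem_roots hB).2 h0
      have h1 := hev _ _ hBx (hrat θ hθ)
      have h2 : (1 + tan (θ / 2) ^ 2 : ℝ) ≠ 0 := by positivity
      rw [mul_div_assoc', div_eq_iff h2, h1]
      ring
    · intro h0
      obtain ⟨a, b, hab⟩ := hcopND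
      have h3 := congrArg (aeval z) hab
      simp [hz, h0] at h3)
  refine ⟨b₁, c₁, b₂, c₂, hb₁, hb₂, ?_⟩
  set Φ : ℝ → ℝ := fun θ => κ θ * (gg b₁ c₁ θ * gg b₂ c₂ θ) +
    (gd b₁ c₁ θ * gg b₂ c₂ θ + gg b₁ c₁ θ * gd b₂ c₂ θ) with hΦ
  have hΦc : Continuous Φ := by
    have := h.continuous_κ
    simp only [hΦ, gg, gd]
    fun_prop
  have hΦp : Function.Periodic Φ (2 * π) := by
    intro θ
    simp only [hΦ, gg, gd, h.κ_per, cos_add_two_pi, sin_add_two_pi]
  have hx : ∀ x : ℝ, Φ (2 * arctan x) = 0 := by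
    intro x
    have h1 := hall x
    have h2 := congrArg (eval x) hF
    simp only [quartic, eval_mul, eval_neg, eval_add, eval_pow, eval_X, eval_C,
      derivative_mul, derivative_add, derivative_X_pow, derivative_C, derivative_X, eval_one,
      eval_zero] at h2
    have h3 : (1 + x ^ 2 : ℝ) ≠ 0 := by positivity
    have h4 := hreal x
    have h5 : κ (2 * arctan x) = K x := rfl
    simp only [hΦ, gg, gd, cos_two_arctan, sin_two_arctan, h5]
    have h6 : D.eval x * (2 * (K x - 2 * x) * ((x ^ 2 + b₁ * x + c₁) * (x ^ 2 + b₂ * x + c₂)) +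
        (1 + x ^ 2) * ((2 * x + b₁) * (x ^ 2 + b₂ * x + c₂) +
          (x ^ 2 + b₁ * x + c₁) * (2 * x + b₂))) = 0 := by
      have h7 : N.eval x * ((x ^ 2 + b₁ * x + c₁) * (x ^ 2 + b₂ * x + c₂)) =
          -(((2 * x + b₁) * (x ^ 2 + b₂ * x + c₂) +
          (x ^ 2 + b₁ * x + c₁) * (2 * x + b₂)) * D.eval x) := by
        norm_num at h2
        linear_combination h2
      linear_combination (1 + x ^ 2) * h7 - ((x ^ 2 + b₁ * x + c₁) * (x ^ 2 + b₂ * x + c₂)) * h1
    rcases mul_eq_zero.1 h6 with h7 | h7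
    · exact absurd h7 h4
    · field_simp
      linear_combination 2 * h7
  have hIoo : Ioo (-π) π ⊆ {θ | Φ θ = 0} := by
    intro θ hθ
    have h1 := hx (tan (θ / 2))
    rw [arctan_tan (by linarith [hθ.1]) (by linarith [hθ.2])] at h1
    have e : 2 * (θ / 2) = θ := by ring
    rwa [e] at h1
  have hIcc : Icc (-π) π ⊆ {θ | Φ θ = 0} := by
    rw [← closure_Ioo (by linarith [pi_pos] : (-π) ≠ π)]
    exact closure_minimal hIoo (isClosed_eq hΦc continuous_const)
  intro θ
  obtain ⟨y, hy, hye⟩ := hΦp.exists_mem_Ioc (by positivity : (0:ℝ) < 2 * π) θ (-π)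
  have h1 : Φ y = 0 := hIcc ⟨hy.1.le, by linarith [hy.2]⟩
  rw [h1] at hye
  simp only [hΦ] at hye
  linarith

end LFam

end Pool.Agent.MP_ae5b4e_an_rat
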