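import Mathlib
import Pool.Agent.Lib.MP_ae5b4e_an_rat.Factor

/-!
The leaves are conics of the pencil.
-/

noncomputable section

namespace Pool.Agent.MP_ae5b4e_an_rat

open Real Set Filter Topology
open Pool.Agent.MP_ae5b4e_an
open Pool.Agent.MP_ae5b4e_an_total (surjective_of_shift)

lemma gg_pos {b c : ℝ} (hbc : b ^ 2 < 4 * c) (θ : ℝ) : 0 < gg b c θ := by
  unfold gg
  have h1 := sin_sq_add_cos_sq θ
  have hc : 0 < c := by nlinarith [sq_nonneg b]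
  have h2 : ((c - 1) * cos θ + b * sin θ) ^ 2 + ((c - 1) * sin θ - b * cos θ) ^ 2 =
      (c - 1) ^ 2 + b ^ 2 := by
    linear_combination ((c - 1) ^ 2 + b ^ 2) * h1
  have h3 : ((c - 1) * cos θ + b * sin θ) ^ 2 < (1 + c) ^ 2 := by
    nlinarith [sq_nonneg ((c - 1) * sin θ - b * cos θ)]
  have h4 := abs_lt_of_sq_lt_sq h3 (by linarith)
  have h5 := neg_abs_le ((c - 1) * cos θ + b * sin θ)
  linarith

/-- the affine function on the tangent line -/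
lemma affine_tangentPoint (b c θ s : ℝ) :
    (c - 1) * (tangentPoint θ s).1 + b * (tangentPoint θ s).2 + (1 + c) =
      gg b c θ + s * gd b c θ := by
  simp only [tangentPoint, gg, gd]
  ring

/-- there is a direction in which one affine function is stationary and the other one does not
decrease -/
lemma exists_dir (b₁ c₁ b₂ c₂ : ℝ) : ∃ θ, gd b₁ c₁ θ = 0 ∧ 0 ≤ gd b₂ c₂ θ := by
  have hcont : Continuous (gd b₁ c₁) := by
    unfold gd
    fun_prop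
  have h0 : gd b₁ c₁ 0 = b₁ := by simp [gd]
  have hpi : gd b₁ c₁ π = -b₁ := by simp [gd]
  have hmem : (0:ℝ) ∈ uIcc (gd b₁ c₁ 0) (gd b₁ c₁ π) := by
    rw [h0, hpi, mem_uIcc]
    rcases le_total 0 b₁ with hb | hb
    · exact Or.inr ⟨by linarith, hb⟩
    · exact Or.inl ⟨hb, by linarith⟩
  obtain ⟨θ, -, hθ⟩ := intermediate_value_uIcc hcont.continuousOn hmem
  have hadd : ∀ b c, gd b c (θ + π) = -gd b c θ := by
    intro b c
    simp only [gd, sin_add_pi, cos_add_pi]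
    ring
  rcases le_total 0 (gd b₂ c₂ θ) with h | h
  · exact ⟨θ, hθ, h⟩
  · refine ⟨θ + π, ?_, ?_⟩
    · rw [hadd, hθ, neg_zero]
    · rw [hadd]
      linarith

/-- The family in the coordinate `u` satisfies the hypotheses. -/
lemma lfam_of {S : ℝ → ℝ → ℝ} {κ : ℝ → ℝ}
    (hsmooth : ContDiffOn ℝ 1 (fun q : ℝ × ℝ => S q.1 q.2) (Ioo 0 1 ×ˢ univ))
    (hpos : ∀ c ∈ Ioo (0:ℝ) 1, ∀ θ, 0 < S c θ)
    (hper : ∀ c ∈ Ioo (0:ℝ) 1, ∀ θ, S c (θ + 2 * π) = S c θ)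
    (hmono : ∀ c ∈ Ioo (0:ℝ) 1, ∀ θ, 0 < deriv (fun t => S t θ) c)
    (hlim : ∀ θ, Tendsto (fun c => S c θ) (𝓝[>] 0) (𝓝 0))
    (hproj : ∀ c ∈ Ioo (0:ℝ) 1, ∀ θ s s', s < 0 → 0 < s' → tangentPoint θ s ∈ leaf S c →
      tangentPoint θ s' ∈ leaf S c → s⁻¹ + s'⁻¹ = κ θ) :
    LFam (fun c θ => (S c θ)⁻¹) κ where
  smooth := hsmooth.inv fun q hq => (hpos q.1 hq.1 q.2).ne'
  per := by
    intro c hc θ
    simp only [hper c hc]
  mono := by
    intro c hc θ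
    have hd : DifferentiableAt ℝ (fun t => S t θ) c := by
      by_contra hneg
      have h1 := hmono c hc θ
      rw [deriv_zero_of_not_differentiableAt hneg] at h1
      exact lt_irrefl _ h1
    have h2 : HasDerivAt (fun t => (S t θ)⁻¹) (-deriv (fun t => S t θ) c / S c θ ^ 2) c :=
      hd.hasDerivAt.inv (hpos c hc θ).ne'
    rw [h2.deriv]
    exact div_neg_of_neg_of_pos (neg_lt_zero.2 (hmono c hc θ)) (pow_pos (hpos c hc θ) 2)
  lim0 := by
    intro θ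
    refine tendsto_inv_nhdsGT_zero.comp ?_
    refine tendsto_nhdsWithin_iff.2 ⟨hlim θ, ?_⟩
    filter_upwards [Ioo_mem_nhdsGT (one_pos : (0:ℝ) < 1)] with c hc
    exact hpos c hc θ
  feq := by
    intro c hc θ
    have h1 := next_eq (hpos c hc) (hproj c hc) θ
    have h2 : nxt (fun c θ => (S c θ)⁻¹) c θ = next S c θ := by
      unfold nxt next
      rw [arctan_inv_of_pos (hpos c hc θ)]
      ring
    rw [h2]
    exact h1

/-- A leaf with constant ratio of the quadratic forms is a conic of the pencil. -/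
lemma leaf_eq {S : ℝ → ℝ → ℝ} {κ : ℝ → ℝ} {c l b₁ c₁ b₂ c₂ : ℝ} (hb₁ : b₁ ^ 2 < 4 * c₁)
    (hb₂ : b₂ ^ 2 < 4 * c₂)
    (hκ : ∀ θ, κ θ * (gg b₁ c₁ θ * gg b₂ c₂ θ) =
      -(gd b₁ c₁ θ * gg b₂ c₂ θ + gg b₁ c₁ θ * gd b₂ c₂ θ))
    (hpos : ∀ θ, 0 < S c θ) (hx : ∀ θ, 0 < (S c θ)⁻¹ - κ θ) (hl : 0 < l)
    (hH : ∀ θ, ((S c θ)⁻¹ * gg b₁ c₁ θ + gd b₁ c₁ θ) *
      ((S c θ)⁻¹ * gg b₂ c₂ θ + gd b₂ c₂ θ) = l) :
    leaf S c = {z : ℝ × ℝ | ((c₁ - 1) * z.1 + b₁ * z.2 + (1 + c₁)) *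
      ((c₂ - 1) * z.1 + b₂ * z.2 + (1 + c₂)) = l * (z.1 ^ 2 + z.2 ^ 2 - 1)} := by
  have hon : ∀ θ, (gg b₁ c₁ θ + S c θ * gd b₁ c₁ θ) * (gg b₂ c₂ θ + S c θ * gd b₂ c₂ θ) =
      l * S c θ ^ 2 := by
    intro θ
    have h1 := hH θ
    have h2 := (hpos θ).ne'
    rw [← h1]
    field_simp
  ext z
  constructor
  · rintro ⟨θ, rfl⟩
    simp only [mem_ofPred_eq]
    rw [affine_tangentPoint, affine_tangentPoint, sq_tangentPoint, hon θ]
    ring
  · intro hz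
    simp only [mem_ofPred_eq] at hz
    have hout : 1 < z.1 ^ 2 + z.2 ^ 2 := by
      by_contra hneg
      push Not at hneg
      have hL : ∀ b c : ℝ, b ^ 2 < 4 * c → 0 < (c - 1) * z.1 + b * z.2 + (1 + c) := by
        intro b c hbc
        have hc : 0 < c := by nlinarith [sq_nonneg b]
        have h2 : ((c - 1) * z.1 + b * z.2) ^ 2 + ((c - 1) * z.2 - b * z.1) ^ 2 =
            ((c - 1) ^ 2 + b ^ 2) * (z.1 ^ 2 + z.2 ^ 2) := by ring
        have h3 : ((c - 1) ^ 2 + b ^ 2) * (z.1 ^ 2 + z.2 ^ 2) ≤ (c - 1) ^ 2 + b ^ 2 :=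
          mul_le_of_le_one_right (by positivity) hneg
        have h4 : ((c - 1) * z.1 + b * z.2) ^ 2 < (1 + c) ^ 2 := by
          nlinarith [sq_nonneg ((c - 1) * z.2 - b * z.1)]
        have h5 := abs_lt_of_sq_lt_sq h4 (by linarith)
        have h6 := neg_abs_le ((c - 1) * z.1 + b * z.2)
        linarith
      have h1 := mul_pos (hL b₁ c₁ hb₁) (hL b₂ c₂ hb₂)
      rw [hz] at h1
      have h2 : l * (z.1 ^ 2 + z.2 ^ 2 - 1) ≤ 0 :=
        mul_nonpos_of_nonneg_of_nonpos hl.le (by linarith)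
      linarith
    obtain ⟨θ, s, hs, hs2, rfl⟩ := exists_tangentPoint hout
    rw [affine_tangentPoint, affine_tangentPoint, sq_tangentPoint] at hz
    have h1 : (s⁻¹ * gg b₁ c₁ θ + gd b₁ c₁ θ) * (s⁻¹ * gg b₂ c₂ θ + gd b₂ c₂ θ) = l := by
      have h2 := hs.ne'
      have h3 : (gg b₁ c₁ θ + s * gd b₁ c₁ θ) * (gg b₂ c₂ θ + s * gd b₂ c₂ θ) = l * s ^ 2 := by
        rw [hz]; ring
      field_simp
      linear_combination h3
    have h2 := hH θ
    have h3 := hκ θ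
    have hf : 0 < gg b₁ c₁ θ * gg b₂ c₂ θ := mul_pos (gg_pos hb₁ θ) (gg_pos hb₂ θ)
    have h4 : (gg b₁ c₁ θ * gg b₂ c₂ θ) * ((s⁻¹ - (S c θ)⁻¹) *
        (s⁻¹ + ((S c θ)⁻¹ - κ θ))) = 0 := by
      linear_combination h1 - h2 - (s⁻¹ - (S c θ)⁻¹) * h3
    have h5 : 0 < s⁻¹ + ((S c θ)⁻¹ - κ θ) := add_pos (inv_pos.2 hs) (hx θ)
    rcases mul_eq_zero.1 h4 with h | h
    · exact absurd h hf.ne'
    · rcases mul_eq_zero.1 h with h' | h'
      · have h6 : s⁻¹ = (S c θ)⁻¹ := by linarith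
        have h7 : s = S c θ := inv_injective h6
        exact ⟨θ, by rw [h7]⟩
      · exact absurd h' h5.ne'

/-- the conic is an ellipse -/
lemma form_pos {S : ℝ → ℝ → ℝ} {c l a₁ b₁ d₁ a₂ b₂ d₂ : ℝ} (hSc : Continuous (S c))
    (hper : ∀ θ, S c (θ + 2 * π) = S c θ) (hd₁ : 0 < d₁) (hd₂ : 0 < d₂) (hl : 0 < l)
    (hleaf : leaf S c = {z : ℝ × ℝ | (a₁ * z.1 + b₁ * z.2 + d₁) *
      (a₂ * z.1 + b₂ * z.2 + d₂) = l * (z.1 ^ 2 + z.2 ^ 2 - 1)}) {x y : ℝ} (hxy : (x, y) ≠ (0, 0)) :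
    (a₁ * x + b₁ * y) * (a₂ * x + b₂ * y) < l * (x ^ 2 + y ^ 2) := by
  have hray : ∀ x y : ℝ, (x, y) ≠ (0, 0) → ∃ t : ℝ, 0 < t ∧ ((t * x, t * y) : ℝ × ℝ) ∈ leaf S c := by
    intro x y hxy
    set r := √(x ^ 2 + y ^ 2) with hr
    have hpos : 0 < x ^ 2 + y ^ 2 := by
      by_contra hneg
      push Not at hneg
      have h1 : x = 0 := by nlinarith [sq_nonneg x, sq_nonneg y]
      have h2 : y = 0 := by nlinarith [sq_nonneg x, sq_nonneg y]
      exact hxy (by rw [h1, h2])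
    have hr0 : 0 < r := sqrt_pos.2 hpos
    have hr2 : r ^ 2 = x ^ 2 + y ^ 2 := sq_sqrt hpos.le
    obtain ⟨φ, hc, hs⟩ : ∃ φ : ℝ, r * cos φ = x ∧ r * sin φ = y := by
      have hn : ‖(⟨x, y⟩ : ℂ)‖ = r := by
        rw [Complex.norm_def, Complex.normSq_mk, ← sq, ← sq]
      have hne : (⟨x, y⟩ : ℂ) ≠ 0 := by
        intro h
        rw [h, norm_zero] at hn
        exact hr0.ne hn
      refine ⟨Complex.arg ⟨x, y⟩, ?_, ?_⟩
      · rw [Complex.cos_arg hne, hn]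
        field_simp
      · rw [Complex.sin_arg, hn]
        field_simp
    have hsurj : Function.Surjective fun θ => θ + arctan (S c θ) := by
      refine surjective_of_shift (by positivity : (0:ℝ) < 2 * π) (by fun_prop) ?_
      intro θ
      simp only [hper]
      ring
    obtain ⟨θ, hθ⟩ := hsurj φ
    simp only at hθ
    set s := S c θ with hs'
    have hs1 : 0 < √(1 + s ^ 2) := sqrt_pos.2 (by positivity)
    have hs2 : √(1 + s ^ 2) ^ 2 = 1 + s ^ 2 := sq_sqrt (by positivity)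
    refine ⟨√(1 + s ^ 2) / r, by positivity, θ, ?_⟩
    show tangentPoint θ s = _
    have e1 : √(1 + s ^ 2) * cos φ = cos θ - s * sin θ := by
      rw [← hθ, cos_add, sin_arctan, cos_arctan]
      field_simp
    have e2 : √(1 + s ^ 2) * sin φ = sin θ + s * cos θ := by
      rw [← hθ, sin_add, sin_arctan, cos_arctan]
      field_simp
    unfold tangentPoint
    rw [← e1, ← e2, ← hc, ← hs]
    ext
    · simp only
      field_simp
    · simp only
      field_simp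
  obtain ⟨t, ht, h1⟩ := hray x y hxy
  obtain ⟨t', ht', h2⟩ := hray (-x) (-y) (by
    intro h0
    apply hxy
    simp only [Prod.mk.injEq, neg_eq_zero] at h0
    rw [h0.1, h0.2])
  rw [hleaf] at h1 h2
  simp only [mem_ofPred_eq] at h1 h2
  by_contra hneg
  push Not at hneg
  -- combine the two points with the weights `t'` and `t`
  have h3 : (t + t') * (t * t' * ((a₁ * x + b₁ * y) * (a₂ * x + b₂ * y) - l * (x ^ 2 + y ^ 2)) +
      d₁ * d₂ + l) = 0 := by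
    linear_combination t' * h1 + t * h2
  have h4 : 0 < t * t' := mul_pos ht ht'
  have h5 : 0 ≤ t * t' * ((a₁ * x + b₁ * y) * (a₂ * x + b₂ * y) - l * (x ^ 2 + y ^ 2)) :=
    mul_nonneg h4.le (by linarith)
  have h6 : 0 < d₁ * d₂ := mul_pos hd₁ hd₂
  rcases mul_eq_zero.1 h3 with h7 | h7
  · linarith
  · linarith

end Pool.Agent.MP_ae5b4e_an_rat
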