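import Mathlib
import Pool.Agent.Lib.MP_ae5b4e_an_rat.Pencil

/-!
# MP_ae5b4e_an: foliations near a conic with a rational field of projective involutions

After a projective map the conic `γ` is the unit circle.  The leaves are the closed curves
`leaf S c`, `0 < c < 1`, which converge to `γ` for `c → 0`.  On the tangent line to `γ` at the
point with angle `θ` we use the signed coordinate `s` (`s = 0` at the tangency point); a projective
involution fixing the tangency point is `1/s + 1/s' = κ θ`.  We assume that the involution depends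
rationally on the point of `γ`: `κ = A/B` for real polynomials `A, B ≠ 0` of the rational parameter
`tan (θ/2)` of the circle.  No symmetry is assumed, and the leaves are only given near `γ` and only
of class `C¹`.  Then the leaves are ellipses of one pencil of conics containing `γ` (it is generated
by `γ` and a pair of lines which do not meet the closed disc bounded by `γ`).

Idea of the proof.  In the half angle coordinate `x` the vertices of a polygon inscribed in a leaf
and circumscribed about `γ` satisfy `2/(x⁺ - x) - 2/(x - x⁻) = k(x)` with a rational function `k`.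
Some leaf consists of closed polygons, so this recursion has a periodic solution in a field of germs
of functions (an ultrapower of the complex numbers) with transcendental entries.  A valuation of
this field, over the complex numbers, with `x₀ → z` at a pole `z` of `k`, and the Newton polygon of
the recursion show: the pole is simple and its residue `-m` satisfies `m = 2` or `K (2 - m) = 2` with
a positive integer `K`.  As the residues sum up to `-4` and there are no real poles, `k = -F'/F` for a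
positive quartic polynomial `F`.  This gives a continuous first integral and the pencil.
-/

noncomputable section

namespace Pool.Agent.MP_ae5b4e_an_rat

open Real Set Filter Topology
open Pool.Agent.MP_ae5b4e_an

/-- Foliations near the unit circle with projective involutions on the tangent lines that depend
rationally on the point of the circle are pencils of conics. -/
theorem rationalConic (S : ℝ → ℝ → ℝ) (κ : ℝ → ℝ) (A B : Polynomial ℝ) (hB : B ≠ 0)
    (hrat : ∀ θ, cos (θ / 2) ≠ 0 → κ θ * B.eval (tan (θ / 2)) = A.eval (tan (θ / 2)))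
    (hsmooth : ContDiffOn ℝ 1 (fun q : ℝ × ℝ => S q.1 q.2) (Ioo 0 1 ×ˢ univ))
    (hpos : ∀ c ∈ Ioo (0:ℝ) 1, ∀ θ, 0 < S c θ)
    (hper : ∀ c ∈ Ioo (0:ℝ) 1, ∀ θ, S c (θ + 2 * π) = S c θ)
    (hmono : ∀ c ∈ Ioo (0:ℝ) 1, ∀ θ, 0 < deriv (fun t => S t θ) c)
    (hlim : ∀ θ, Tendsto (fun c => S c θ) (𝓝[>] 0) (𝓝 0))
    (hproj : ∀ c ∈ Ioo (0:ℝ) 1, ∀ θ s s', s < 0 → 0 < s' → tangentPoint θ s ∈ leaf S c →
      tangentPoint θ s' ∈ leaf S c → s⁻¹ + s'⁻¹ = κ θ) :
    ∃ a₁ b₁ d₁ a₂ b₂ d₂ : ℝ, 0 < d₁ ∧ a₁ ^ 2 + b₁ ^ 2 < d₁ ^ 2 ∧ 0 < d₂ ∧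
      a₂ ^ 2 + b₂ ^ 2 < d₂ ^ 2 ∧ ∀ c ∈ Ioo (0:ℝ) 1, ∃ l : ℝ, 0 < l ∧
      (∀ x y : ℝ, (x, y) ≠ (0, 0) →
        (a₁ * x + b₁ * y) * (a₂ * x + b₂ * y) < l * (x ^ 2 + y ^ 2)) ∧
      leaf S c = {z : ℝ × ℝ | (a₁ * z.1 + b₁ * z.2 + d₁) * (a₂ * z.1 + b₂ * z.2 + d₂) =
        l * (z.1 ^ 2 + z.2 ^ 2 - 1)} := by
  have h : LFam (fun c θ => (S c θ)⁻¹) κ := lfam_of hsmooth hpos hper hmono hlim hproj
  obtain ⟨b₁, c₁, b₂, c₂, hb₁, hb₂, hκ⟩ := h.exists_factors hB hrat
  have hc₁ : 0 < c₁ := by nlinarith [sq_nonneg b₁]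
  have hc₂ : 0 < c₂ := by nlinarith [sq_nonneg b₂]
  refine ⟨c₁ - 1, b₁, 1 + c₁, c₂ - 1, b₂, 1 + c₂, by linarith, by nlinarith, by linarith,
    by nlinarith, fun c hc => ?_⟩
  set I : ℝ × ℝ → ℝ := fun q => ((S q.1 q.2)⁻¹ * gg b₁ c₁ q.2 + gd b₁ c₁ q.2) *
    ((S q.1 q.2)⁻¹ * gg b₂ c₂ q.2 + gd b₂ c₂ q.2) with hI
  have hIc : ContinuousOn I (Ioo 0 1 ×ˢ univ) := by
    have h1 : ContinuousOn (fun q : ℝ × ℝ => (S q.1 q.2)⁻¹) (Ioo 0 1 ×ˢ univ) :=
      h.continuousOn_Uf
    have h2 : ∀ b c, ContinuousOn (fun q : ℝ × ℝ => gg b c q.2) (Ioo 0 1 ×ˢ univ) := by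
      intro b c
      unfold gg
      exact Continuous.continuousOn (by fun_prop)
    have h3 : ∀ b c, ContinuousOn (fun q : ℝ × ℝ => gd b c q.2) (Ioo 0 1 ×ˢ univ) := by
      intro b c
      unfold gd
      exact Continuous.continuousOn (by fun_prop)
    exact ((h1.mul (h2 b₁ c₁)).add (h3 b₁ c₁)).mul ((h1.mul (h2 b₂ c₂)).add (h3 b₂ c₂))
  have hIp : ∀ c ∈ Ioo (0:ℝ) 1, ∀ θ, I (c, θ + 2 * π) = I (c, θ) := by
    intro c hc θ
    simp only [hI, hper c hc, gg, gd, cos_add_two_pi, sin_add_two_pi]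
  have hIinv : ∀ c ∈ Ioo (0:ℝ) 1, ∀ θ, I (c, nxt (fun c θ => (S c θ)⁻¹) c θ) = I (c, θ) := by
    intro c hc θ
    have e : nxt (fun c θ => (S c θ)⁻¹) c θ = next S c θ := by
      unfold nxt next
      rw [arctan_inv_of_pos (hpos c hc θ)]
      ring
    rw [e]
    have h1 := next_eq (hpos c hc) (hproj c hc) θ
    have h2 := (hpos c hc θ).ne'
    have h3 := hκ (next S c θ)
    have h4 : ∀ b d : ℝ, (S c θ)⁻¹ * gg b d (next S c θ) - gd b d (next S c θ) =
        (S c θ)⁻¹ * gg b d θ + gd b d θ := by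
      intro b d
      have h5 := affine_tangentPoint b d θ (S c θ)
      have h6 := affine_tangentPoint b d (next S c θ) (-(S c θ))
      have h7 : tangentPoint (next S c θ) (-(S c θ)) = tangentPoint θ (S c θ) := by
        unfold next
        rw [tangentPoint_next]
      rw [h7, h5] at h6
      field_simp
      linarith
    have h5 := h4 b₁ c₁
    have h6 := h4 b₂ c₂
    simp only [hI]
    rw [← h5, ← h6]
    have h7 : (S c θ)⁻¹ = (S c (next S c θ))⁻¹ - κ (next S c θ) := h1.symm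
    rw [h7]
    linear_combination (2 * (S c (next S c θ))⁻¹ - κ (next S c θ)) * h3
  have hconst : ∀ θ, I (c, θ) = I (c, 0) := fun θ => h.const_of_inv hIc hIp hIinv hc θ
  have hl : 0 < I (c, 0) := by
    obtain ⟨θ, h1, h2⟩ := exists_dir b₁ c₁ b₂ c₂
    rw [← hconst θ]
    simp only [hI]
    rw [h1, add_zero]
    have h3 : 0 < (S c θ)⁻¹ := inv_pos.2 (hpos c hc θ)
    exact mul_pos (mul_pos h3 (gg_pos hb₁ θ))
      (add_pos_of_pos_of_nonneg (mul_pos h3 (gg_pos hb₂ θ)) h2)
  have hx : ∀ θ, 0 < (S c θ)⁻¹ - κ θ := by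
    intro θ
    obtain ⟨θ', rfl⟩ := h.nxt_surj hc θ
    have h1 := h.feq c hc θ'
    rw [h1]
    exact inv_pos.2 (hpos c hc θ')
  have hleaf := leaf_eq (S := S) (κ := κ) (c := c) (l := I (c, 0)) hb₁ hb₂ hκ (hpos c hc) hx hl
    (fun θ => hconst θ)
  have hSc : Continuous (S c) := by
    have h1 : ContinuousOn (fun q : ℝ × ℝ => S q.1 q.2) (Ioo 0 1 ×ˢ univ) := hsmooth.continuousOn
    exact h1.comp_continuous (f := fun θ => (c, θ)) (by fun_prop) fun θ => ⟨hc, mem_univ _⟩
  refine ⟨I (c, 0), hl, ?_, hleaf⟩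
  intro x y hxy
  exact form_pos hSc (hper c hc) (by linarith) (by linarith) hl hleaf hxy

end Pool.Agent.MP_ae5b4e_an_rat
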